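import Mathlib
import Pool.Agent.N600.ZQ.L1

/-!
# Lifting to Z-groups
-/

set_option autoImplicit false

namespace Pool.Agent.N600.ZQ

set_option linter.unusedSectionVars false

open scoped commutatorElement

/-- A nontrivial Z-group has a nontrivial normal Sylow subgroup. -/
theorem exists_normal_sylow (Q : Type) [Group Q] [Finite Q] [IsZGroup Q] [Nontrivial Q] :
    ∃ p : ℕ, ∃ _ : Fact p.Prime, p ∣ Nat.card Q ∧ ∃ P : Sylow p Q, (P : Subgroup Q).Normal := by
  have hQ1 : 1 < Nat.card Q := Finite.one_lt_card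
  by_cases hD : commutator Q = ⊥
  · -- commutative
    have hc : ∀ x y : Q, x * y = y * x := by
      intro x y
      have h1 : ⁅x, y⁆ ∈ commutator Q := Subgroup.commutator_mem_commutator trivial trivial
      rw [hD, Subgroup.mem_bot, commutatorElement_eq_one_iff_mul_comm] at h1
      exact h1
    refine ⟨(Nat.card Q).minFac, ⟨Nat.minFac_prime hQ1.ne'⟩, Nat.minFac_dvd _, default, ⟨?_⟩⟩
    intro x hx g
    rw [hc g x, mul_inv_cancel_right]
    exact hx
  · let D := commutator Q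
    have hDn : Nontrivial D := (Subgroup.nontrivial_iff_ne_bot D).2 hD
    have hD1 : 1 < Nat.card D := Finite.one_lt_card
    let p := (Nat.card D).minFac
    have hp : Fact p.Prime := ⟨Nat.minFac_prime hD1.ne'⟩
    have hpD : p ∣ Nat.card D := Nat.minFac_dvd _
    have hcyc : IsCyclic D := IsZGroup.isCyclic_commutator Q
    have hcop := IsZGroup.coprime_commutator_index Q
    let S : Sylow p D := default
    have hDc : ∀ x y : D, x * y = y * x := by
      obtain ⟨g, hg⟩ := hcyc.exists_generator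
      intro x y
      obtain ⟨k, rfl⟩ := hg x
      obtain ⟨l, rfl⟩ := hg y
      exact (Commute.refl g).zpow_zpow k l
    have hSn : (S : Subgroup D).Normal := ⟨fun x hx g => by
      rw [hDc g x, mul_inv_cancel_right]
      exact hx⟩
    have hSc : (S : Subgroup D).Characteristic := S.characteristic_of_normal hSn
    have hcard : Nat.card ((S : Subgroup D).map D.subtype) =
        p ^ (Nat.card Q).factorization p := by
      rw [Subgroup.card_map_of_injective D.subtype_injective, S.card_eq_multiplicity]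
      congr 1
      have h1 : Nat.card Q = Nat.card D * D.index := (Subgroup.card_mul_index D).symm
      have h2 : ¬ p ∣ D.index := by
        intro h
        have h3 := Nat.dvd_gcd hpD h
        have h4 : Nat.gcd (Nat.card D) D.index = 1 := hcop
        rw [h4] at h3
        exact hp.1.one_lt.ne' (Nat.dvd_one.1 h3)
      rw [h1, Nat.factorization_mul Nat.card_pos.ne' D.index_ne_zero_of_finite,
        Finsupp.add_apply, Nat.factorization_eq_zero_of_not_dvd h2, add_zero]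
    refine ⟨p, hp, hpD.trans (Subgroup.card_subgroup_dvd_card D), Sylow.ofCard _ hcard, ?_⟩
    change ((S : Subgroup D).map D.subtype).Normal
    exact ConjAct.normal_of_characteristic_of_normal

/-- The product of a subgroup with a subgroup of its normalizer. -/
def prodSub {B : Type} [Group B] (T K : Subgroup B) (h : ∀ k ∈ K, ∀ t ∈ T, k * t * k⁻¹ ∈ T) :
    Subgroup B where
  carrier := {x | ∃ t ∈ T, ∃ k ∈ K, x = t * k}
  one_mem' := ⟨1, one_mem _, 1, one_mem _, (mul_one 1).symm⟩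
  mul_mem' := by
    rintro _ _ ⟨t, ht, k, hk, rfl⟩ ⟨t', ht', k', hk', rfl⟩
    exact ⟨t * (k * t' * k⁻¹), mul_mem ht (h k hk t' ht'), k * k', mul_mem hk hk', by group⟩
  inv_mem' := by
    rintro _ ⟨t, ht, k, hk, rfl⟩
    have h1 := h k⁻¹ (inv_mem hk) t⁻¹ (inv_mem ht)
    rw [inv_inv] at h1
    exact ⟨k⁻¹ * t⁻¹ * k, h1, k⁻¹, inv_mem hk, by group⟩

theorem zlift_aux (N : ℕ) : ∀ (Q : Type) [Group Q] [Finite Q] [IsZGroup Q], Nat.card Q = N →
    ∀ (B : Type) [Group B] [Finite B] (b : B →* Q), Function.Surjective b →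
    ∃ H : Subgroup B, IsZGroup H ∧ (∀ q, ∃ h ∈ H, b h = q) ∧
      ∀ l : ℕ, l.Prime → l ∣ Nat.card H → l ∣ Nat.card Q := by
  classical
  induction N using Nat.strong_induction_on with
  | _ N ih =>
  intro Q _ _ _ hN B _ _ b hb
  rcases subsingleton_or_nontrivial Q with hQ | hQ
  · refine ⟨⊥, inferInstance, fun q => ⟨1, one_mem _, Subsingleton.elim _ _⟩, ?_⟩
    intro l hl h
    rw [Subgroup.card_bot] at h
    exact absurd (Nat.dvd_one.1 h) hl.one_lt.ne'
  obtain ⟨p, hp, hpQ, P, hPn⟩ := exists_normal_sylow Q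
  let S : Sylow p B := default
  have hSP : (S : Subgroup B).map b = P := by
    have h1 : S.mapSurjective hb = P := by
      have := P.unique_of_normal hPn
      exact Subsingleton.elim _ _
    rw [← h1]
    rfl
  have hSA : (S : Subgroup B) ≤ (P : Subgroup Q).comap b := by
    rw [← Subgroup.map_le_iff_le_comap, hSP]
  have hfrat := Sylow.normalizer_sup_eq_top' S hSA
  let C : Subgroup B := Subgroup.normalizer ((S : Subgroup B) : Set B)
  have hCS : ∀ c ∈ C, ∀ x, x ∈ (S : Subgroup B) ↔ c * x * c⁻¹ ∈ (S : Subgroup B) :=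
    fun c hc x => Subgroup.mem_normalizer_iff.1 hc x
  have hSC : (S : Subgroup B) ≤ C := Subgroup.le_normalizer
  have hCQ : ∀ q, ∃ c ∈ C, b c = q := by
    intro q
    obtain ⟨y, rfl⟩ := hb q
    have h1 : y ∈ C ⊔ (P : Subgroup Q).comap b := by
      have h2 : C ⊔ (P : Subgroup Q).comap b = ⊤ := hfrat
      rw [h2]
      trivial
    obtain ⟨c, hc, a, ha, rfl⟩ := Subgroup.mem_sup_of_normal_right.1 h1
    have h2 : b a ∈ (S : Subgroup B).map b := by rw [hSP]; exact ha
    obtain ⟨s, hs, hsa⟩ := h2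
    exact ⟨c * s, mul_mem hc (hSC hs), by rw [map_mul, map_mul, hsa]⟩
  -- the quotients
  let SC : Subgroup C := (S : Subgroup B).subgroupOf C
  have hSCn : SC.Normal := ⟨fun x hx c => (hCS c c.2 x).1 hx⟩
  let b₁ : C ⧸ SC →* Q ⧸ (P : Subgroup Q) := QuotientGroup.map SC (P : Subgroup Q)
    (b.comp C.subtype) (fun x hx => hSA hx)
  have hb₁ : Function.Surjective b₁ := by
    intro q
    obtain ⟨q, rfl⟩ := QuotientGroup.mk'_surjective _ q
    obtain ⟨c, hc, rfl⟩ := hCQ q
    exact ⟨QuotientGroup.mk' SC ⟨c, hc⟩, rfl⟩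
  have hPnt : Nontrivial (P : Subgroup Q) := by
    rw [Subgroup.nontrivial_iff_ne_bot]
    exact P.ne_bot_of_dvd_card hpQ
  have hlt : Nat.card (Q ⧸ (P : Subgroup Q)) < N := by
    have h1 := Subgroup.card_eq_card_quotient_mul_card_subgroup (P : Subgroup Q)
    have h2 : 1 < Nat.card (P : Subgroup Q) := Finite.one_lt_card
    have h3 : 0 < Nat.card (Q ⧸ (P : Subgroup Q)) := Nat.card_pos
    rw [← hN, h1]
    exact lt_mul_of_one_lt_right h3 h2
  obtain ⟨H₁, hH₁Z, hH₁Q, hH₁p⟩ := ih _ hlt (Q ⧸ (P : Subgroup Q)) rfl (C ⧸ SC) b₁ hb₁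
  have hpH₁ : ¬ p ∣ Nat.card H₁ := by
    intro h
    have h1 := hH₁p p hp.1 h
    exact P.not_dvd_index h1
  -- the preimage
  let M : Subgroup C := H₁.comap (QuotientGroup.mk' SC)
  let f : M →* H₁ := ((QuotientGroup.mk' SC).comp M.subtype).codRestrict H₁ (fun x => x.2)
  have hf : Function.Surjective f := by
    rintro ⟨h, hh⟩
    obtain ⟨c, rfl⟩ := QuotientGroup.mk'_surjective _ h
    exact ⟨⟨c, hh⟩, rfl⟩
  have hfk : ∀ x : M, f x = 1 ↔ ((x : C) : B) ∈ (S : Subgroup B) := by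
    intro x
    constructor
    · intro h
      have h1 : QuotientGroup.mk' SC (x : C) = 1 := congrArg Subtype.val h
      have h2 : (x : C) ∈ SC := (QuotientGroup.eq_one_iff (x : C)).1 h1
      exact h2
    · intro h
      apply Subtype.ext
      exact (QuotientGroup.eq_one_iff (x : C)).2 h
  let g : M →* B := C.subtype.comp M.subtype
  have hg : Function.Injective g := C.subtype_injective.comp M.subtype_injective
  have hfkp : IsPGroup p f.ker := by
    have h1 : IsPGroup p (f.ker.map g) := S.2.to_le (by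
      rintro _ ⟨x, hx, rfl⟩
      exact (hfk x).1 hx)
    exact h1.of_equiv (Subgroup.equivMapOfInjective f.ker g hg).symm
  have hcop : Nat.Coprime (Nat.card f.ker) f.ker.index := by
    obtain ⟨k, hk⟩ := IsPGroup.iff_card.1 hfkp
    have h1 : f.ker.index = Nat.card H₁ := by
      rw [Subgroup.index_ker, MonoidHom.range_eq_top.2 hf, Subgroup.card_top]
    rw [hk, h1]
    exact Nat.Coprime.pow_left k ((Nat.Prime.coprime_iff_not_dvd hp.1).2 hpH₁)
  obtain ⟨H₂, hH₂⟩ := Subgroup.exists_right_complement'_of_coprime hcop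
  have hH₂inj : Function.Injective (f.comp H₂.subtype) := by
    rw [injective_iff_map_eq_one]
    intro x hx
    have h1 : (x : M) ∈ f.ker ⊓ H₂ := ⟨hx, x.2⟩
    rw [hH₂.disjoint.eq_bot, Subgroup.mem_bot] at h1
    exact Subtype.ext h1
  have hH₂sur : ∀ h : H₁, ∃ x ∈ H₂, f x = h := by
    intro h
    obtain ⟨y, rfl⟩ := hf h
    have h1 : y ∈ f.ker ⊔ H₂ := by rw [hH₂.sup_eq_top]; trivial
    obtain ⟨u, hu, x, hx, rfl⟩ := Subgroup.mem_sup_of_normal_left.1 h1
    refine ⟨x, hx, ?_⟩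
    rw [map_mul, (hu : f u = 1), one_mul]
  let K₂ : Subgroup B := H₂.map g
  have hK₂C : K₂ ≤ C := by
    rintro _ ⟨x, -, rfl⟩
    exact (x : C).2
  have hK₂card : Nat.card K₂ ∣ Nat.card H₁ := by
    rw [Subgroup.card_map_of_injective hg]
    exact Subgroup.card_dvd_of_injective (f.comp H₂.subtype) hH₂inj
  have hpK₂ : ¬ p ∣ Nat.card K₂ := fun h => hpH₁ (h.trans hK₂card)
  have hK₂S : ∀ k ∈ K₂, k ∈ (S : Subgroup B) → k = 1 := by
    rintro _ ⟨x, hx, rfl⟩ hkS
    have h1 : f.comp H₂.subtype ⟨x, hx⟩ = 1 := (hfk x).2 hkS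
    have h2 : (⟨x, hx⟩ : H₂) = 1 := hH₂inj (h1.trans (map_one _).symm)
    have h3 : x = 1 := congrArg Subtype.val h2
    rw [h3, map_one]
  -- a minimal subgroup
  let 𝒯 : Set (Subgroup B) := {T | T ≤ (S : Subgroup B) ∧
    (∀ k ∈ K₂, ∀ t ∈ T, k * t * k⁻¹ ∈ T) ∧ T.map b = P}
  have hS𝒯 : (S : Subgroup B) ∈ 𝒯 :=
    ⟨le_rfl, fun k hk t ht => (hCS k (hK₂C hk) t).1 ht, hSP⟩
  obtain ⟨T, ⟨hTS, hTK, hTP⟩, hTmin⟩ := wellFounded_lt.has_min 𝒯 ⟨_, hS𝒯⟩
  have hK₂T : K₂ ≤ Subgroup.normalizer (T : Set B) := by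
    intro k hk
    rw [Subgroup.mem_normalizer_iff]
    intro t
    refine ⟨hTK k hk t, fun h => ?_⟩
    have h1 := hTK k⁻¹ (inv_mem hk) _ h
    have h2 : k⁻¹ * (k * t * k⁻¹) * k⁻¹⁻¹ = t := by group
    rwa [h2] at h1
  have hTcyc : IsCyclic T := by
    have hPc : IsCyclic (P : Subgroup Q) := inferInstance
    let σ : K₂ →* MulAut T := T.normalizerMonoidHom.comp (Subgroup.inclusion hK₂T)
    have hσ : ∀ (k : K₂) (t : T), ((σ k t : T) : B) = k * t * (k : B)⁻¹ := fun k t => rfl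
    let τ : K₂ →* MulAut (P : Subgroup Q) := MulAut.conjNormal.comp (b.comp K₂.subtype)
    have hτ : ∀ (k : K₂) (t : (P : Subgroup Q)), ((τ k t : (P : Subgroup Q)) : Q) =
        b k * t * (b k)⁻¹ := fun k t => MulAut.conjNormal_apply _ _
    let fT : T →* (P : Subgroup Q) := (b.comp T.subtype).codRestrict _ (fun t => by
      rw [← hTP]
      exact ⟨t, t.2, rfl⟩)
    refine cyclic_of_minimal (p := p) (S.2.to_le hTS) hpK₂ σ τ fT ?_ ?_ ?_
    · rintro ⟨y, hy⟩
      rw [← hTP] at hy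
      obtain ⟨t, ht, rfl⟩ := hy
      exact ⟨⟨t, ht⟩, rfl⟩
    · intro k t
      apply Subtype.ext
      rw [hτ]
      change b ((σ k t : T) : B) = b k * b t * (b k)⁻¹
      rw [hσ, map_mul, map_mul, map_inv]
    · intro T' hT'1 hT'2
      have h1 : T'.map T.subtype ∈ 𝒯 := by
        refine ⟨?_, ?_, ?_⟩
        · rintro _ ⟨t, -, rfl⟩
          exact hTS t.2
        · rintro k hk _ ⟨t, ht, rfl⟩
          exact ⟨σ ⟨k, hk⟩ t, hT'1 ⟨k, hk⟩ t ht, rfl⟩
        · apply le_antisymm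
          · rintro _ ⟨_, ⟨t, -, rfl⟩, rfl⟩
            exact (fT t).2
          · intro y hy
            have h2 : (⟨y, hy⟩ : (P : Subgroup Q)) ∈ T'.map fT := by rw [hT'2]; trivial
            obtain ⟨t, ht, h3⟩ := h2
            exact ⟨t, ⟨t, ht, rfl⟩, congrArg Subtype.val h3⟩
      have h2 := hTmin _ h1
      have h3 : T'.map T.subtype ≤ T := by
        rintro _ ⟨t, -, rfl⟩
        exact t.2
      have h4 : T'.map T.subtype = T := by
        by_contra hne
        exact h2 (lt_of_le_of_ne h3 hne)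
      rw [eq_top_iff]
      intro t _
      have h5 : (t : B) ∈ T'.map T.subtype := by rw [h4]; exact t.2
      obtain ⟨t', ht', h6⟩ := h5
      rw [← T.subtype_injective h6]
      exact ht'
  -- the subgroup
  let H : Subgroup B := prodSub T K₂ hTK
  have hHC : H ≤ C := by
    rintro _ ⟨t, ht, k, hk, rfl⟩
    exact mul_mem (hSC (hTS ht)) (hK₂C hk)
  have hTH : T ≤ H := fun t ht => ⟨t, ht, 1, one_mem _, (mul_one t).symm⟩
  have hKH : K₂ ≤ H := fun k hk => ⟨1, one_mem _, k, hk, (one_mul k).symm⟩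
  have hHM : ∀ x : H, QuotientGroup.mk' SC (⟨x, hHC x.2⟩ : C) ∈ H₁ := by
    rintro ⟨_, t, ht, k, hk, rfl⟩
    obtain ⟨y, hy, hyk⟩ := id hk
    have h1 : (⟨t * k, hHC ⟨t, ht, k, hk, rfl⟩⟩ : C) = ⟨t, hSC (hTS ht)⟩ * (y : C) := by
      apply Subtype.ext
      change t * k = t * ((y : C) : B)
      rw [← hyk]
      rfl
    have h2 : QuotientGroup.mk' SC (⟨t, hSC (hTS ht)⟩ : C) = 1 :=
      (QuotientGroup.eq_one_iff _).2 (hTS ht)
    rw [h1, map_mul, h2, one_mul]
    exact y.2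
  let f' : H →* H₁ := ((QuotientGroup.mk' SC).comp (Subgroup.inclusion hHC)).codRestrict H₁ hHM
  let iT : T →* H := Subgroup.inclusion hTH
  have hle : f'.ker ≤ iT.range := by
    rintro ⟨_, t, ht, k, hk, rfl⟩ hx
    have h1 : QuotientGroup.mk' SC (⟨t * k, hHC ⟨t, ht, k, hk, rfl⟩⟩ : C) = 1 :=
      congrArg Subtype.val hx
    have h2' : (⟨t * k, hHC ⟨t, ht, k, hk, rfl⟩⟩ : C) ∈ SC := (QuotientGroup.eq_one_iff _).1 h1
    have h2 : t * k ∈ (S : Subgroup B) := h2'
    have h3 : k ∈ (S : Subgroup B) := by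
      have h4 : k = t⁻¹ * (t * k) := by group
      rw [h4]
      exact mul_mem (inv_mem (hTS ht)) h2
    have h4 := hK₂S k hk h3
    refine ⟨⟨t, ht⟩, Subtype.ext ?_⟩
    change t = t * k
    rw [h4, mul_one]
  have hTp : IsPGroup p T := S.2.to_le hTS
  have hcop2 : (Nat.card T).Coprime (Nat.card H₁) := by
    obtain ⟨k, hk⟩ := IsPGroup.iff_card.1 hTp
    rw [hk]
    exact Nat.Coprime.pow_left k ((Nat.Prime.coprime_iff_not_dvd hp.1).2 hpH₁)
  refine ⟨H, isZGroup_of_coprime hle hcop2, ?_, ?_⟩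
  · intro q
    obtain ⟨⟨h₁, hh₁⟩, hq₁⟩ : ∃ h : H₁, b₁ h = QuotientGroup.mk' _ q := by
      obtain ⟨h, hh, hhq⟩ := hH₁Q (QuotientGroup.mk' _ q)
      exact ⟨⟨h, hh⟩, hhq⟩
    obtain ⟨x, hx, hxf⟩ := hH₂sur ⟨h₁, hh₁⟩
    have h1 : QuotientGroup.mk' SC (x : C) = h₁ := congrArg Subtype.val hxf
    have h2 : QuotientGroup.mk' (P : Subgroup Q) (b (x : C)) = QuotientGroup.mk' _ q := by
      rw [← hq₁]
      change _ = b₁ h₁
      rw [← h1]
      rfl
    have h3 : q * (b (x : C))⁻¹ ∈ (P : Subgroup Q) := by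
      rw [← QuotientGroup.eq_one_iff]
      change QuotientGroup.mk' (P : Subgroup Q) (q * (b (x : C))⁻¹) = 1
      rw [map_mul, map_inv, h2, mul_inv_cancel]
    rw [← hTP] at h3
    obtain ⟨t, ht, h4⟩ := h3
    refine ⟨t * g x, ⟨t, ht, g x, ⟨x, hx, rfl⟩, rfl⟩, ?_⟩
    change b (t * ((x : C) : B)) = q
    rw [map_mul, h4, inv_mul_cancel_right]
  · intro l hl hlH
    have h1 : Nat.card H = Nat.card f'.ker * Nat.card f'.range := by
      rw [← Subgroup.index_ker, Subgroup.card_mul_index]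
    rw [h1, hl.dvd_mul] at hlH
    rcases hlH with h2 | h2
    · have h3 : Nat.card f'.ker ∣ Nat.card iT.range := Subgroup.card_dvd_of_le hle
      have h4 : Nat.card iT.range ∣ Nat.card T := Subgroup.card_range_dvd iT
      obtain ⟨k, hk⟩ := IsPGroup.iff_card.1 hTp
      have h5 : l ∣ p ^ k := by
        rw [← hk]
        exact h2.trans (h3.trans h4)
      have h6 : l = p := (Nat.prime_dvd_prime_iff_eq hl hp.1).1 (hl.dvd_of_dvd_pow h5)
      rw [h6]
      exact hpQ
    · have h3 : l ∣ Nat.card H₁ := h2.trans (Subgroup.card_subgroup_dvd_card _)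
      refine (hH₁p l hl h3).trans ?_
      exact Subgroup.card_quotient_dvd_card _

/-- **Lifting to Z-groups.** -/
theorem zlift (Q : Type) [Group Q] [Finite Q] [IsZGroup Q] (B : Type) [Group B] [Finite B]
    (b : B →* Q) (hb : Function.Surjective b) :
    ∃ H : Subgroup B, IsZGroup H ∧ ∀ q, ∃ h ∈ H, b h = q := by
  obtain ⟨H, h1, h2, -⟩ := zlift_aux _ Q rfl B b hb
  exact ⟨H, h1, h2⟩

end Pool.Agent.N600.ZQ
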