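import Mathlib
import Pool.Agent.TH59.WX.UG
import Pool.Agent.TH59.WX.UH
import Pool.Agent.N600.UK.Compl

/-!
# Extensions with kernel `G ≀ S_n` whose type lifts to `Aut G`
-/

set_option autoImplicit false

namespace Pool.Agent.N600.ZQ

open Pool.Agent.H391R2 Pool.Agent.H391R2.T4
open Pool.Agent.TH59.WX
open Pool.Agent.N600.UK (conj_inj)

set_option linter.unusedSectionVars false

section gt

variable {G : Type} [Group G] {n : ℕ}

/-- **Extensions by `G ≀ S_n` whose outer action on `G` is induced by the homomorphism `ψ` to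
`Aut G`.** -/
theorem ext_of_type [Finite G] [Nontrivial G] (hn : 2 * (Nat.card G + 2) ≤ n)
    (hZ : ∀ z : G, (∀ g : G, z * g = g * z) → z = 1) {X Γ : Type} [Group X] [Group Γ]
    (β : X →* Γ) (hβ : Function.Surjective β) (ι : Wr G n ≃* β.ker) (j₀ : Fin n)
    (ψ : X →* MulAut G) (hker : β.ker ≤ ψ.ker)
    (hψ : ∀ x : X, ∃ w : Wr G n, ∀ g : G,
      x * (ι (sgl j₀ g) : X) * x⁻¹ = (ι (w * sgl j₀ (ψ x g) * w⁻¹) : X)) :
    ∃ (φ : Γ →* MulAut G) (Θ : X ≃* EG φ n), ∀ x, (Θ x).right = β x := by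
  classical
  obtain ⟨D, hDr, hDc, hDin⟩ := exists_D (G := G) (n := n) hn hZ
  have hcinj : Function.Injective (MulAut.conj : G →* MulAut G) := conj_inj hZ
  obtain ⟨g₀, hg₀⟩ := exists_ne (1 : G)
  let c : X →* MulAut (Wr G n) := (MulAut.congr ι.symm).toMonoidHom.comp MulAut.conjNormal
  have hc' : ∀ (x : X) (w : Wr G n), ((ι (c x w) : β.ker) : X) = x * (ι w : X) * x⁻¹ := by
    intro x w
    change ((ι (ι.symm (MulAut.conjNormal x (ι w))) : β.ker) : X) = _
    rw [MulEquiv.apply_symm_apply, MulAut.conjNormal_apply]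
  have hc : ∀ w : Wr G n, c (ι w) = MulAut.conj w := by
    intro w
    apply MulEquiv.ext
    intro x
    change ι.symm (MulAut.conjNormal (ι w : X) (ι x)) = w * x * w⁻¹
    rw [MulEquiv.symm_apply_eq]
    apply Subtype.ext
    rw [MulAut.conjNormal_apply]
    simp only [map_mul, map_inv, Subgroup.coe_mul, Subgroup.coe_inv]
  let d : X →* Wr (MulAut G) n := D.comp c
  have hd : ∀ w : Wr G n, d (ι w) = ⟨fun i => MulAut.conj (w.left i), w.right⟩ := by
    intro w
    change D (c (ι w)) = _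
    rw [hc, hDc]
  let φ : Γ →* MulAut G := β.liftOfSurjective hβ ⟨ψ, hker⟩
  have hφ : ∀ x, φ (β x) = ψ x := fun x =>
    MonoidHom.liftOfRightInverse_comp_apply β _ (Function.rightInverse_surjInv hβ) ⟨ψ, hker⟩ x
  have hone : ∀ x, ∃ (k : Fin n) (u : G), (d x).left k = MulAut.conj u * φ (β x) := by
    intro x
    obtain ⟨w, hw⟩ := hψ x
    have h1 : ∀ g, c x (sgl j₀ g) = w * sgl j₀ (ψ x g) * w⁻¹ := by
      intro g
      apply ι.injective
      apply Subtype.ext
      rw [hc', hw]
    have h2 : ∀ g, sgl ((d x).right j₀) ((d x).left ((d x).right j₀) g) =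
        sgl (w.right j₀) (MulAut.conj (w.left (w.right j₀)) (ψ x g)) := by
      intro g
      have h3 := (hDr (c x) j₀ g).symm
      have h4 := rel_conj w j₀ (ψ x g)
      change sgl ((D (c x)).right j₀) ((D (c x)).left ((D (c x)).right j₀) g) = _
      rw [h3, h1]
      exact h4
    have h5 : (d x).right j₀ = w.right j₀ := by
      by_contra hne
      have h6 := congrArg (fun y : Wr G n => y.left ((d x).right j₀)) (h2 g₀)
      simp only [sgl_left_self, sgl_left_ne hne] at h6
      exact hg₀ ((map_eq_one_iff _ ((d x).left ((d x).right j₀)).injective).1 h6)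
    refine ⟨(d x).right j₀, w.left (w.right j₀), ?_⟩
    apply MulEquiv.ext
    intro g
    have h6 := h2 g
    rw [← h5] at h6
    rw [hφ, h5] at *
    exact sgl_inj h6
  have hex : ∀ x, ∃ w : Wr G n, (∀ j, (d x).left j = MulAut.conj (w.left j) * φ (β x)) ∧
      w.right = (d x).right := by
    intro x
    have h1 : ∀ j, ∃ g : G, (d x).left j = MulAut.conj g * φ (β x) := by
      intro j
      obtain ⟨k, u, hu⟩ := hone x
      obtain ⟨v, hv⟩ := hDin (c x) j k
      refine ⟨v * u, ?_⟩
      rw [map_mul, mul_assoc, ← hu]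
      exact hv
    choose g hg using h1
    exact ⟨⟨g, (d x).right⟩, hg, rfl⟩
  have huniq : ∀ x (w v : Wr G n), (∀ j, (d x).left j = MulAut.conj (w.left j) * φ (β x)) →
      w.right = (d x).right → (∀ j, (d x).left j = MulAut.conj (v.left j) * φ (β x)) →
      v.right = (d x).right → w = v := by
    intro x w v h1 h2 h3 h4
    refine wr_ext (fun j => ?_) (h2.trans h4.symm)
    apply hcinj
    exact mul_right_cancel ((h1 j).symm.trans (h3 j))
  choose W hW1 hW2 using hex
  have hWmul : ∀ x y, W (x * y) = W x * wrAct φ n (β x) (W y) := by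
    intro x y
    refine huniq (x * y) _ _ (hW1 _) (hW2 _) (fun j => ?_) ?_
    · rw [wr_mul_left, wrAct_left, map_mul, map_mul, wr_mul_left, hW1 x j, hW2 x,
        hW1 y, map_mul]
      have h1 : ∀ (a : MulAut G) (g : G), a * MulAut.conj g = MulAut.conj (a g) * a := by
        intro a g
        apply MulEquiv.ext
        intro x
        simp only [MulAut.mul_apply, MulAut.conj_apply, map_mul, map_inv]
      rw [map_mul, mul_assoc, ← mul_assoc (φ (β x)), h1]
      simp only [mul_assoc]
    · rw [wr_mul_right, wrAct_right, hW2, hW2, map_mul, wr_mul_right]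
  have hWι : ∀ w, W (ι w) = w := by
    intro w
    have h1 : β (ι w : X) = 1 := (ι w).2
    refine huniq (ι w) _ _ (hW1 _) (hW2 _) (fun j => ?_) ?_
    · rw [hd, h1, map_one, mul_one]
    · rw [hd]
  let Θ : X →* EG φ n := MonoidHom.mk' (fun x => ⟨W x, β x⟩) (fun x y => by
    refine SemidirectProduct.ext ?_ ?_
    · rw [eg_mul_left]
      exact hWmul x y
    · rw [eg_mul_right]
      exact map_mul β x y)
  have hΘ : Function.Bijective Θ := by
    constructor
    · rw [injective_iff_map_eq_one]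
      intro x hx
      have h1 : β x = 1 := congrArg (fun z : EG φ n => z.right) hx
      have h2 : W x = 1 := congrArg (fun z : EG φ n => z.left) hx
      obtain ⟨w, hw⟩ := ι.surjective ⟨x, h1⟩
      have h3 : (ι w : X) = x := congrArg Subtype.val hw
      rw [← h3, hWι] at h2
      rw [← h3, h2, map_one]
      rfl
    · rintro ⟨w, ρ⟩
      obtain ⟨x₀, rfl⟩ := hβ ρ
      refine ⟨(ι (w * (W x₀)⁻¹) : X) * x₀, ?_⟩
      have h1 : β (ι (w * (W x₀)⁻¹) : X) = 1 := (ι (w * (W x₀)⁻¹)).2
      refine SemidirectProduct.ext ?_ ?_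
      · change W (_ * _) = w
        rw [hWmul, hWι, h1, map_one, MulAut.one_apply, inv_mul_cancel_right]
      · change β (_ * _) = β x₀
        rw [map_mul, h1, one_mul]
  exact ⟨φ, MulEquiv.ofBijective Θ hΘ, fun x => rfl⟩

end gt

/-- Regular solutions. -/
theorem reg_type (K L : Type) [Field K] [Field L] [Algebra K L] [FiniteDimensional K L]
    [IsGalois K L] (G : Type) [Group G] [Finite G] [Nontrivial G]
    (hZ : ∀ z : G, (∀ g : G, z * g = g * z) → z = 1) (n : ℕ)
    (hn : ((3 * Nat.card G + 2).factorial) ^ 3 ≤ n) (X : Type) [Group X]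
    (β : X →* (L ≃ₐ[K] L)) (hβ : Function.Surjective β) (ι : Wr G n ≃* β.ker) (j₀ : Fin n)
    (ψ : X →* MulAut G) (hker : β.ker ≤ ψ.ker)
    (hψ : ∀ x : X, ∃ w : Wr G n, ∀ g : G,
      x * (ι (sgl j₀ g) : X) * x⁻¹ = (ι (w * sgl j₀ (ψ x g) * w⁻¹) : X)) :
    RegSol K L X β := by
  have hb : wb (Nat.card G) ≤ n := (fac_bound _ Nat.card_pos).trans hn
  obtain ⟨φ, Θ, hΘ⟩ := ext_of_type (le_trans (le_max_left _ _) hb) hZ β hβ ι j₀ ψ hker hψ
  exact reg_transport SemidirectProduct.rightHom β Θ hΘ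
    (reg_eg K L G φ n (le_trans (le_max_right _ _) hb))

end Pool.Agent.N600.ZQ
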