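import Mathlib
import Pool.Agent.N600.ZQ.S3

/-!
# Extensions of type given by a homomorphism to the automorphism group of the product
-/

set_option autoImplicit false

namespace Pool.Agent.N600.ZQ

open Pool.Agent.H391R2 (Wr wr_mul_left wr_mul_right wr_inv_left)
open Pool.Agent.H391R2.T4 (RegSol exists_equiv_of_ker finite_wr)
open Pool.Agent.TH59.WX hiding quot_equiv

set_option linter.unusedSectionVars false

section act

variable {X Γ : Type} [Group X] [Group Γ] (α : X →* Γ) {ι : Type} [Finite ι] [DecidableEq ι]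
  {G : ι → Type} [∀ i, Group (G i)] {n : ι → ℕ} (e : α.ker ≃* ∀ i, Wr (G i) (n i))
  (hI : ∀ i, Indec (Wr (G i) (n i))) (hN : ∀ i, Nontrivial (Wr (G i) (n i)))
  (p : ∀ i, Fin (n i))

/-- The elements of the kernel given by the marked factors. -/
noncomputable def mu (g : ∀ i, G i) : α.ker := e.symm fun i => sgl (p i) (g i)

theorem e_mu (g : ∀ i, G i) (i : ι) : e (mu α e p g) i = sgl (p i) (g i) := by
  unfold mu
  rw [MulEquiv.apply_symm_apply]

/-- The elements `a` of `Aut (∏ G i)` which describe the action of `x` on the marked factors. -/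
def Desc (x : X) (a : MulAut (∀ i, G i)) : Prop :=
  ∃ w : α.ker, ∀ g : ∀ i, G i, x * (mu α e p g : X) * x⁻¹ = w * (mu α e p (a g) : X) * (w : X)⁻¹

variable {α e p}

theorem Desc.comp {x : X} {a : MulAut (∀ i, G i)} (h : Desc α e p x a) :
    ∃ w : ∀ i, Wr (G i) (n i), ∀ g i, e ⟨x * (mu α e p g : X) * x⁻¹, conj_mem_ker α x (mu α e p g).2⟩ i =
      w i * sgl (p i) (a g i) * (w i)⁻¹ := by
  obtain ⟨w, hw⟩ := h
  refine ⟨fun i => e w i, fun g i => ?_⟩
  have h1 : (⟨x * (mu α e p g : X) * x⁻¹, conj_mem_ker α x (mu α e p g).2⟩ : α.ker) =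
      w * mu α e p (a g) * w⁻¹ := Subtype.ext (hw g)
  rw [h1, map_mul, map_mul, map_inv, Pi.mul_apply, Pi.mul_apply, Pi.inv_apply, e_mu]

variable (α e p)

theorem supp_of_desc (i : ι) (x : X) (hx : x ∈ Xi α e hI hN i) (a : MulAut (∀ i, G i))
    (h : Desc α e p x a) (g : G i) :
    Pi.mulSingle i ((a (Pi.mulSingle i g)) i) = a (Pi.mulSingle i g) := by
  funext k
  by_cases hk : k = i
  · subst hk
    rw [Pi.mulSingle_eq_same]
  · rw [Pi.mulSingle_eq_of_ne hk]
    obtain ⟨w, hw⟩ := h.comp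
    have h1 := hw (Pi.mulSingle i g) k
    have hk' : (pX α e hI hN x) ((pX α e hI hN x)⁻¹ k) = k := by simp
    have hne : (pX α e hI hN x)⁻¹ k ≠ i := by
      intro h'
      rw [Equiv.Perm.inv_eq_iff_eq] at h'
      rw [(mem_Xi α e hI hN i x).1 hx] at h'
      exact hk h'
    have h2 : e (mu α e p (Pi.mulSingle i g)) ((pX α e hI hN x)⁻¹ k) = 1 := by
      rw [e_mu, Pi.mulSingle_eq_of_ne hne, sgl_one]
    have h3 := (pX_iff α e hI hN x _ _ (mu α e p (Pi.mulSingle i g)).2).2 h2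
    rw [hk'] at h3
    rw [h3] at h1
    have h4 : sgl (p k) (a (Pi.mulSingle i g) k) = 1 := by
      have h5 := h1.symm
      rw [mul_inv_eq_iff_eq_mul, one_mul, mul_eq_left] at h5
      exact h5
    exact (sgl_inj (h4.trans (sgl_one (p k)).symm)).symm

/-- **The type homomorphisms of the factors.** -/
theorem typeHom_of_act (a : X →* MulAut (∀ i, G i)) (ha1 : ∀ x ∈ α.ker, a x = 1)
    (ha2 : ∀ x, Desc α e p x (a x)) (i : ι) : TypeHom α e hI hN p i := by
  have hs : ∀ (x : Xi α e hI hN i) (g : G i),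
      Pi.mulSingle i ((a x (Pi.mulSingle i g)) i) = a x (Pi.mulSingle i g) :=
    fun x g => supp_of_desc α e hI hN p i x x.2 (a x) (ha2 x) g
  let φ : Xi α e hI hN i → MulAut (G i) := fun x =>
    { toFun := fun g => (a x (Pi.mulSingle i g)) i
      invFun := fun g => (a (x⁻¹ : Xi α e hI hN i) (Pi.mulSingle i g)) i
      left_inv := fun g => by
        change (a ((x⁻¹ : Xi α e hI hN i) : X) (Pi.mulSingle i ((a x (Pi.mulSingle i g)) i))) i = g
        rw [hs x g, ← MulAut.mul_apply, ← map_mul]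
        have h1 : ((x⁻¹ : Xi α e hI hN i) : X) * x = 1 := by
          rw [Subgroup.coe_inv, inv_mul_cancel]
        rw [h1, map_one, MulAut.one_apply, Pi.mulSingle_eq_same]
      right_inv := fun g => by
        change (a (x : X) (Pi.mulSingle i ((a ((x⁻¹ : Xi α e hI hN i) : X)
          (Pi.mulSingle i g)) i))) i = g
        rw [hs x⁻¹ g, ← MulAut.mul_apply, ← map_mul]
        have h1 : (x : X) * ((x⁻¹ : Xi α e hI hN i) : X) = 1 := by
          rw [Subgroup.coe_inv, mul_inv_cancel]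
        rw [h1, map_one, MulAut.one_apply, Pi.mulSingle_eq_same]
      map_mul' := fun g h => by
        rw [Pi.mulSingle_mul, map_mul, Pi.mul_apply] }
  have hφ : ∀ x g, φ x g = (a x (Pi.mulSingle i g)) i := fun x g => rfl
  refine ⟨MonoidHom.mk' φ fun x y => ?_, ?_, ?_⟩
  · apply MulEquiv.ext
    intro g
    rw [MulAut.mul_apply, hφ, hφ, hφ, hs y g, ← MulAut.mul_apply, ← map_mul]
    rfl
  · intro x hx
    apply MulEquiv.ext
    intro g
    change (a x (Pi.mulSingle i g)) i = g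
    rw [ha1 x hx, MulAut.one_apply, Pi.mulSingle_eq_same]
  · intro x
    obtain ⟨w, hw⟩ := (ha2 x).comp
    refine ⟨w i, fun g m hm h => ?_⟩
    change _ = w i * sgl (p i) ((a x (Pi.mulSingle i g)) i) * (w i)⁻¹
    rw [← hw]
    have h1 : e ((mu α e p (Pi.mulSingle i g))⁻¹ * ⟨m, hm⟩) i = 1 := by
      rw [map_mul, map_inv, Pi.mul_apply, Pi.inv_apply, e_mu, h, Pi.mulSingle_eq_same,
        inv_mul_cancel]
    have h2 := (pX_iff α e hI hN x i _ ((mu α e p (Pi.mulSingle i g))⁻¹ * ⟨m, hm⟩ : α.ker).2).2 h1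
    rw [(mem_Xi α e hI hN i x).1 x.2] at h2
    have h3 : (⟨x * (((mu α e p (Pi.mulSingle i g))⁻¹ * ⟨m, hm⟩ : α.ker) : X) * (x : X)⁻¹,
        conj_mem_ker α x ((mu α e p (Pi.mulSingle i g))⁻¹ * ⟨m, hm⟩ : α.ker).2⟩ : α.ker) =
        (⟨x * (mu α e p (Pi.mulSingle i g) : X) * (x : X)⁻¹,
          conj_mem_ker α x (mu α e p (Pi.mulSingle i g)).2⟩)⁻¹ *
        ⟨x * m * (x : X)⁻¹, conj_mem_ker α x hm⟩ := by
      apply Subtype.ext
      simp only [Subgroup.coe_mul, Subgroup.coe_inv, mul_inv_rev, inv_inv]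
      group
    rw [h3, map_mul, map_inv, Pi.mul_apply, Pi.inv_apply, inv_mul_eq_one] at h2
    exact h2.symm

end act

/-- **Regular solutions.** -/
theorem reg_act (K L : Type) [Field K] [Infinite K] [Field L] [Algebra K L]
    [FiniteDimensional K L] [IsGalois K L] (X : Type) [Group X] (α : X →* (L ≃ₐ[K] L))
    (hα : Function.Surjective α) {ι : Type} [Finite ι] [DecidableEq ι] {G : ι → Type}
    [∀ i, Group (G i)] [∀ i, Finite (G i)] [∀ i, Nontrivial (G i)] {n : ι → ℕ}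
    (e : α.ker ≃* ∀ i, Wr (G i) (n i))
    (hZ : ∀ i, ∀ z : G i, (∀ g : G i, z * g = g * z) → z = 1)
    (hn : ∀ i, ((3 * Nat.card (G i) + 2).factorial) ^ 3 ≤ n i) (p : ∀ i, Fin (n i))
    (a : X →* MulAut (∀ i, G i)) (ha1 : ∀ x ∈ α.ker, a x = 1)
    (ha2 : ∀ x, Desc α e p x (a x)) : RegSol K L X α := by
  have hn2 : ∀ i, 2 ≤ n i := by
    intro i
    refine le_trans ?_ (hn i)
    have h1 : 3 * Nat.card (G i) + 2 ≤ (3 * Nat.card (G i) + 2).factorial :=
      Nat.self_le_factorial _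
    have h2 : (3 * Nat.card (G i) + 2).factorial ≤ ((3 * Nat.card (G i) + 2).factorial) ^ 3 :=
      Nat.le_self_pow (by norm_num) _
    omega
  have hI : ∀ i, Indec (Wr (G i) (n i)) := fun i => wr_indec (hZ i) (hn2 i)
  have hN : ∀ i, Nontrivial (Wr (G i) (n i)) := by
    intro i
    obtain ⟨g, hg⟩ := exists_ne (1 : G i)
    exact ⟨⟨sgl (p i) g, 1, fun h => hg (sgl_inj (h.trans (sgl_one _).symm))⟩⟩
  exact prod_aux _ ι G n hI hN hZ hn p rfl K L X α hα e
    (fun i => typeHom_of_act α e hI hN p a ha1 ha2 i)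

end Pool.Agent.N600.ZQ
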