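import Mathlib
import Pool.Agent.N600.ZQ.T1

/-!
# The type group of an extension
-/

set_option autoImplicit false

namespace Pool.Agent.N600.ZQ

open Pool.Agent.H391R2 (Wr wr_mul_left wr_mul_right wr_inv_left)
open Pool.Agent.H391R2.T4 (RegSol exists_equiv_of_ker finite_wr)
open Pool.Agent.TH59.WX hiding quot_equiv

set_option linter.unusedSectionVars false

section ex

variable {J : Type} {G₀ : J → Type} [∀ j, Group (G₀ j)] {n₀ : J → ℕ} (p₀ : ∀ j, Fin (n₀ j))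

/-- Isomorphisms between equal wreath products. -/
theorem iso_desc (j j' : J) (h : j = j') [Finite (G₀ j)] [Nontrivial (G₀ j)]
    (hn : 2 * (Nat.card (G₀ j) + 2) ≤ n₀ j)
    (hZ : ∀ z : G₀ j, (∀ g : G₀ j, z * g = g * z) → z = 1)
    (f : Wr (G₀ j) (n₀ j) ≃* Wr (G₀ j') (n₀ j')) :
    ∃ (φ : G₀ j ≃* G₀ j') (w : Wr (G₀ j') (n₀ j')),
      ∀ g, f (sgl (p₀ j) g) = w * sgl (p₀ j') (φ g) * w⁻¹ := by
  subst h
  obtain ⟨d, hd⟩ := exists_rel hn hZ f
  let w : Wr (G₀ j) (n₀ j) := SemidirectProduct.inr (Equiv.swap (p₀ j) (d.right (p₀ j)))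
  refine ⟨d.left (d.right (p₀ j)), w, fun g => ?_⟩
  have h1 := rel_conj w (p₀ j) (d.left (d.right (p₀ j)) g)
  have h2 : w.right (p₀ j) = d.right (p₀ j) := Equiv.swap_apply_left _ _
  have h3 : ∀ k, w.left k = 1 := fun k => rfl
  change f (sgl (p₀ j) g) = _
  rw [hd (p₀ j) g]
  refine Eq.trans ?_ h1.symm
  change _ = sgl (w.right (p₀ j)) ((MulAut.conj (w.left (w.right (p₀ j))))
    (d.left (d.right (p₀ j)) g))
  rw [h2, h3, map_one, MulAut.one_apply]

variable [∀ j, Finite (G₀ j)] [∀ j, Nontrivial (G₀ j)]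
  (hZ : ∀ j, ∀ z : G₀ j, (∀ g : G₀ j, z * g = g * z) → z = 1)
  (hn : ∀ j, 2 * (Nat.card (G₀ j) + 2) ≤ n₀ j)
  (hstd : ∀ j j', Nonempty (Wr (G₀ j) (n₀ j) ≃* Wr (G₀ j') (n₀ j')) → j = j')
  {ι : Type} [Finite ι] [DecidableEq ι] (rep : ι → J)

include hZ hn hstd in
theorem exists_desc (A : MulAut (∀ i, Wr (G₀ (rep i)) (n₀ (rep i)))) :
    ∃ (a : MulAut (∀ i, G₀ (rep i))) (w : ∀ i, Wr (G₀ (rep i)) (n₀ (rep i))),
      ∀ g : ∀ i, G₀ (rep i), A (fun i => sgl (p₀ (rep i)) (g i)) =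
        w * (fun i => sgl (p₀ (rep i)) (a g i)) * w⁻¹ := by
  have hn2 : ∀ j, 2 ≤ n₀ j := fun j => by
    have := hn j
    omega
  have hI : ∀ i, Indec (Wr (G₀ (rep i)) (n₀ (rep i))) := fun i => wr_indec (hZ _) (hn2 _)
  have hN : ∀ i, Nontrivial (Wr (G₀ (rep i)) (n₀ (rep i))) := by
    intro i
    obtain ⟨g, hg⟩ := exists_ne (1 : G₀ (rep i))
    exact ⟨⟨sgl (p₀ _) g, 1, fun h => hg (sgl_inj (h.trans (sgl_one _).symm))⟩⟩
  let T : ι → Type := fun i => Wr (G₀ (rep i)) (n₀ (rep i))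
  let π := perm hI hN A
  have hπ : ∀ (i : ι) (x : ∀ i, T i), A x (π i) = 1 ↔ x i = 1 := fun i x => perm_iff hI hN A i x
  -- the components of the automorphism
  let Ai : ∀ i, T i →* T (π i) := fun i =>
    MonoidHom.mk' (fun t => A (Pi.mulSingle i t) (π i)) (fun s t => by
      rw [Pi.mulSingle_mul, map_mul, Pi.mul_apply])
  have hAi : ∀ i t, Ai i t = A (Pi.mulSingle i t) (π i) := fun i t => rfl
  have hAix : ∀ (i : ι) (x : ∀ i, T i), A x (π i) = Ai i (x i) := by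
    intro i x
    have h1 : ((Pi.mulSingle i (x i))⁻¹ * x : ∀ i, T i) i = 1 := by
      rw [Pi.mul_apply, Pi.inv_apply, Pi.mulSingle_eq_same, inv_mul_cancel]
    have h2 := (hπ i _).2 h1
    rw [map_mul, map_inv, Pi.mul_apply, Pi.inv_apply, inv_mul_eq_one] at h2
    exact h2.symm
  have hbij : ∀ i, Function.Bijective (Ai i) := by
    intro i
    constructor
    · rw [injective_iff_map_eq_one]
      intro t ht
      have h1 := (hπ i (Pi.mulSingle i t)).1 ht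
      rwa [Pi.mulSingle_eq_same] at h1
    · intro s
      refine ⟨(A⁻¹ (Pi.mulSingle (π i) s)) i, ?_⟩
      rw [← hAix, MulAut.apply_inv_self, Pi.mulSingle_eq_same]
  have hex : ∀ i, ∃ (φ : G₀ (rep i) ≃* G₀ (rep (π i))) (w : Wr (G₀ (rep (π i))) (n₀ (rep (π i)))),
      ∀ g, Ai i (sgl (p₀ (rep i)) g) = w * sgl (p₀ (rep (π i))) (φ g) * w⁻¹ := by
    intro i
    have h1 : rep i = rep (π i) := hstd _ _ ⟨MulEquiv.ofBijective (Ai i) (hbij i)⟩
    exact iso_desc p₀ (rep i) (rep (π i)) h1 (hn _) (hZ _) (MulEquiv.ofBijective (Ai i) (hbij i))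
  choose φ w hw using hex
  let E : (∀ i, G₀ (rep i)) ≃ (∀ i, G₀ (rep i)) := π.piCongr (fun i => (φ i).toEquiv)
  have hE : ∀ (g : ∀ i, G₀ (rep i)) (i : ι), E g (π i) = φ i (g i) := fun g i => by
    have h1 := Equiv.piCongr_apply_apply (W := fun i => G₀ (rep i)) (Z := fun i => G₀ (rep i)) π
      (fun i => (φ i).toEquiv) g i
    exact h1
  let a : MulAut (∀ i, G₀ (rep i)) :=
    { E with
      map_mul' := fun g h => by
        funext k
        obtain ⟨i, rfl⟩ := π.surjective k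
        change E (g * h) (π i) = E g (π i) * E h (π i)
        rw [hE, hE, hE, Pi.mul_apply, map_mul] }
  have ha : ∀ (g : ∀ i, G₀ (rep i)) (i : ι), a g (π i) = φ i (g i) := hE
  let W : ∀ i, T i := (Equiv.piCongrLeft T π) w
  have hW : ∀ i, W (π i) = w i := fun i => Equiv.piCongrLeft_apply_apply T π w i
  refine ⟨a, W, fun g => ?_⟩
  funext k
  obtain ⟨i, rfl⟩ := π.surjective k
  change A _ (π i) = W (π i) * sgl (p₀ (rep (π i))) (a g (π i)) * (W (π i))⁻¹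
  rw [hAix, hw, hW, ha]

end ex

section tb

variable {X Γ : Type} [Group X] [Group Γ] (α : X →* Γ) {ι : Type} [Finite ι] [DecidableEq ι]
  {G : ι → Type} [∀ i, Group (G i)] {n : ι → ℕ} (e : α.ker ≃* ∀ i, Wr (G i) (n i))
  (p : ∀ i, Fin (n i))

theorem mu_mul (g h : ∀ i, G i) : mu α e p (g * h) = mu α e p g * mu α e p h := by
  apply e.injective
  funext i
  rw [map_mul, Pi.mul_apply, e_mu, e_mu, e_mu, Pi.mul_apply, sgl_mul]

theorem desc_of_ker (x : X) (hx : x ∈ α.ker) : Desc α e p x 1 := ⟨⟨x, hx⟩, fun _ => rfl⟩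

theorem desc_mul {x y : X} {a b : MulAut (∀ i, G i)} (hx : Desc α e p x a)
    (hy : Desc α e p y b) : Desc α e p (x * y) (a * b) := by
  obtain ⟨w, hw⟩ := hx
  obtain ⟨v, hv⟩ := hy
  refine ⟨⟨x * v * x⁻¹, conj_mem_ker α x v.2⟩ * w, fun g => ?_⟩
  have h1 : x * y * (mu α e p g : X) * (x * y)⁻¹ =
      x * (y * (mu α e p g : X) * y⁻¹) * x⁻¹ := by group
  have h2 : x * ((v : X) * (mu α e p (b g) : X) * (v : X)⁻¹) * x⁻¹ =
      (x * v * x⁻¹) * (x * (mu α e p (b g) : X) * x⁻¹) * (x * v * x⁻¹)⁻¹ := by group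
  rw [h1, hv, h2, hw, MulAut.mul_apply]
  simp only [Subgroup.coe_mul]
  group

theorem desc_inv {x : X} {a : MulAut (∀ i, G i)} (hx : Desc α e p x a) :
    Desc α e p x⁻¹ a⁻¹ := by
  obtain ⟨w, hw⟩ := hx
  refine ⟨⟨x⁻¹ * (w⁻¹ : α.ker) * x, by
    have h1 := conj_mem_ker α x⁻¹ (w⁻¹ : α.ker).2
    rwa [inv_inv] at h1⟩, fun g => ?_⟩
  have h1 := hw (a⁻¹ g)
  rw [MulAut.apply_inv_self] at h1
  have h2 : (mu α e p g : X) = (w : X)⁻¹ * (x * (mu α e p (a⁻¹ g) : X) * x⁻¹) * w := by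
    rw [h1]
    group
  rw [h2]
  simp only [Subgroup.coe_inv]
  group

/-- The type group. -/
def TB : Subgroup (MulAut (∀ i, G i) × Γ) where
  carrier := {b | ∃ x, α x = b.2 ∧ Desc α e p x b.1}
  one_mem' := ⟨1, map_one α, desc_of_ker α e p 1 (one_mem _)⟩
  mul_mem' := by
    rintro b c ⟨x, hx, h1⟩ ⟨y, hy, h2⟩
    exact ⟨x * y, by rw [map_mul, hx, hy]; rfl, desc_mul α e p h1 h2⟩
  inv_mem' := by
    rintro b ⟨x, hx, h1⟩
    exact ⟨x⁻¹, by rw [map_inv, hx]; rfl, desc_inv α e p h1⟩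

theorem mem_TB (b : MulAut (∀ i, G i) × Γ) :
    b ∈ TB α e p ↔ ∃ x, α x = b.2 ∧ Desc α e p x b.1 := Iff.rfl

/-- All elements over `α x` describe the action of `x`. -/
theorem desc_of_mem {x : X} {a : MulAut (∀ i, G i)} (h : (a, α x) ∈ TB α e p) :
    Desc α e p x a := by
  obtain ⟨y, hy, h1⟩ := h
  have hk : x * y⁻¹ ∈ α.ker := by
    rw [MonoidHom.mem_ker, map_mul, map_inv]
    change α x * (α y)⁻¹ = 1
    rw [hy]
    exact mul_inv_cancel _
  have h2 := desc_mul α e p (desc_of_ker α e p _ hk) h1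
  rwa [inv_mul_cancel_right, one_mul] at h2

/-- The kernel of the type group consists of inner automorphisms. -/
theorem ker_TB [∀ i, Nontrivial (G i)] (a : MulAut (∀ i, G i)) (h : (a, (1 : Γ)) ∈ TB α e p) :
    ∃ v : ∀ i, G i, MulAut.conj v = a := by
  have h0 : Desc α e p 1 a := desc_of_mem α e p (x := 1) (by rw [map_one]; exact h)
  obtain ⟨w, hw⟩ := h0.comp
  have h1 : ∀ (i : ι) (g : ∀ i, G i), sgl (p i) (g i) = w i * sgl (p i) (a g i) * (w i)⁻¹ := by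
    intro i g
    have h5 : (⟨1 * (mu α e p g : X) * 1⁻¹, conj_mem_ker α 1 (mu α e p g).2⟩ : α.ker) =
        mu α e p g := by
      apply Subtype.ext
      change 1 * (mu α e p g : X) * 1⁻¹ = (mu α e p g : X)
      rw [one_mul, inv_one, mul_one]
    rw [← hw g i, h5, e_mu α e p g i]
  -- conjugation by `w i` on the marked factor
  have h2 : ∀ (i : ι) (g : ∀ i, G i), sgl (p i) (g i) = sgl ((w i).right (p i))
      (MulAut.conj ((w i).left ((w i).right (p i))) (a g i)) := by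
    intro i g
    rw [h1 i g]
    exact rel_conj (w i) (p i) (a g i)
  have h3 : ∀ i, (w i).right (p i) = p i := by
    intro i
    obtain ⟨g₀, hg₀⟩ := exists_ne (1 : G i)
    have h4 := h2 i (Pi.mulSingle i g₀)
    rw [Pi.mulSingle_eq_same] at h4
    by_contra hne
    have h5 := congrArg (fun y : Wr (G i) (n i) => y.left (p i)) h4
    simp only [sgl_left_self] at h5
    rw [sgl_left_ne (fun h => hne h.symm)] at h5
    exact hg₀ h5
  have h4 : ∀ (i : ι) (g : ∀ i, G i), g i = MulAut.conj ((w i).left (p i)) (a g i) := by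
    intro i g
    have h5 := h2 i g
    rw [h3 i] at h5
    exact sgl_inj h5
  refine ⟨fun i => ((w i).left (p i))⁻¹, ?_⟩
  apply MulEquiv.ext
  intro g
  funext i
  rw [MulAut.conj_apply, Pi.mul_apply, Pi.mul_apply, Pi.inv_apply, inv_inv]
  have h5 := h4 i g
  rw [MulAut.conj_apply] at h5
  rw [h5]
  group

end tb

end Pool.Agent.N600.ZQ
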