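import Mathlib
import Pool.Agent.N600.ZQ.T2
import Pool.Agent.N600.ZQ.L2
import Pool.Agent.TH444.TW.RS
import Pool.Agent.TH444.TW.Ab

/-!
# Pull-back to a group over which the type lifts
-/

set_option autoImplicit false

namespace Pool.Agent.N600.ZQ

open Pool.Agent.H391R2 (Wr wr_mul_left wr_mul_right wr_inv_left)
open Pool.Agent.H391R2.T4 (RegSol exists_equiv_of_ker finite_wr)
open Pool.Agent.TH59.WX hiding quot_equiv
open Pool.Agent.TH444.TW (RS ab_rs)

set_option linter.unusedSectionVars false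

section pull

variable {X Γ : Type} [Group X] [Group Γ] (α : X →* Γ) {ι : Type} [Finite ι] [DecidableEq ι]
  {G : ι → Type} [∀ i, Group (G i)] {n : ι → ℕ} (e : α.ker ≃* ∀ i, Wr (G i) (n i))
  (p : ∀ i, Fin (n i))

/-- Descriptions are compatible with pull-backs. -/
theorem desc_pull {X' Γ' : Type} [Group X'] [Group Γ'] (α' : X' →* Γ') (r : X' →* X)
    (E : α'.ker ≃* α.ker) (hE : ∀ m : α'.ker, (E m : X) = r m) (y : X')
    (a : MulAut (∀ i, G i)) (h : Desc α e p (r y) a) : Desc α' (E.trans e) p y a := by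
  obtain ⟨w, hw⟩ := h
  have hmu : ∀ g, r (mu α' (E.trans e) p g : X') = mu α e p g := by
    intro g
    rw [← hE]
    congr 1
    apply e.injective
    funext i
    rw [e_mu]
    exact e_mu α' (E.trans e) p g i
  refine ⟨E.symm w, fun g => ?_⟩
  have hk : ∀ u v : α'.ker, r (u : X') = r (v : X') → (u : X') = v := by
    intro u v huv
    rw [← hE, ← hE] at huv
    exact congrArg Subtype.val (E.injective (Subtype.ext huv))
  have hw' : r (E.symm w : X') = w := by
    rw [← hE, MulEquiv.apply_symm_apply]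
  have h1 := hk ⟨y * (mu α' (E.trans e) p g : X') * y⁻¹,
      conj_mem_ker α' y (mu α' (E.trans e) p g).2⟩
    (E.symm w * mu α' (E.trans e) p (a g) * (E.symm w)⁻¹) (by
      change r (y * (mu α' (E.trans e) p g : X') * y⁻¹) =
        r ((E.symm w : X') * (mu α' (E.trans e) p (a g) : X') * (E.symm w : X')⁻¹)
      simp only [map_mul, map_inv]
      rw [hmu, hmu, hw', hw])
  exact h1

/-- The fibre product. -/
def FP {Q' : Type} [Group Q'] (t : Q' →* Γ) : Subgroup (X × Q') where
  carrier := {y | α y.1 = t y.2}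
  one_mem' := by
    change α 1 = t 1
    rw [map_one, map_one]
  mul_mem' := by
    intro y z hy hz
    change α (y.1 * z.1) = t (y.2 * z.2)
    rw [map_mul, map_mul, hy, hz]
  inv_mem' := by
    intro y hy
    change α (y.1⁻¹) = t (y.2⁻¹)
    rw [map_inv, map_inv, hy]

/-- The projection of the fibre product. -/
def fpr {Q' : Type} [Group Q'] (t : Q' →* Γ) : FP α t →* Q' :=
  (MonoidHom.snd X Q').comp (FP α t).subtype

/-- The projection of the fibre product to `X`. -/
def fpl {Q' : Type} [Group Q'] (t : Q' →* Γ) : FP α t →* X :=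
  (MonoidHom.fst X Q').comp (FP α t).subtype

theorem fpr_surj (hα : Function.Surjective α) {Q' : Type} [Group Q'] (t : Q' →* Γ) :
    Function.Surjective (fpr α t) := by
  intro q
  obtain ⟨x, hx⟩ := hα (t q)
  exact ⟨⟨(x, q), hx⟩, rfl⟩

theorem fpl_surj {Q' : Type} [Group Q'] (t : Q' →* Γ) (ht : Function.Surjective t) :
    Function.Surjective (fpl α t) := by
  intro x
  obtain ⟨q, hq⟩ := ht (α x)
  exact ⟨⟨(x, q), hq.symm⟩, rfl⟩

/-- **The pull-back is regularly solvable.** -/
theorem rs_pull [∀ i, Finite (G i)] [∀ i, Nontrivial (G i)] (hα : Function.Surjective α)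
    (hZ : ∀ i, ∀ z : G i, (∀ g : G i, z * g = g * z) → z = 1)
    (hn : ∀ i, ((3 * Nat.card (G i) + 2).factorial) ^ 3 ≤ n i)
    {Q' : Type} [Group Q'] (t : Q' →* TB α e p) :
    RS (fpr α ((MonoidHom.snd _ _).comp ((TB α e p).subtype.comp t))) := by
  intro K M _ _ _ _ _ _ ε
  let tΓ : Q' →* Γ := (MonoidHom.snd _ _).comp ((TB α e p).subtype.comp t)
  let α' : FP α tΓ →* (M ≃ₐ[K] M) := ε.symm.toMonoidHom.comp (fpr α tΓ)
  have hα' : Function.Surjective α' := ε.symm.surjective.comp (fpr_surj α hα tΓ)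
  have hk' : ∀ y : FP α tΓ, y ∈ α'.ker ↔ y.1.2 = 1 := by
    intro y
    rw [MonoidHom.mem_ker]
    change ε.symm y.1.2 = 1 ↔ _
    rw [map_eq_one_iff _ ε.symm.injective]
  let u : α'.ker →* α.ker := ((fpl α tΓ).comp α'.ker.subtype).codRestrict α.ker (fun y => by
    rw [MonoidHom.mem_ker]
    change α (y : FP α tΓ).1.1 = 1
    have h1 : α (y : FP α tΓ).1.1 = tΓ (y : FP α tΓ).1.2 := (y : FP α tΓ).2
    rw [h1, (hk' y).1 y.2, map_one])
  have hu : Function.Bijective u := by
    constructor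
    · rw [injective_iff_map_eq_one]
      intro y hy
      have h1 : (y : FP α tΓ).1.1 = 1 := congrArg Subtype.val hy
      exact Subtype.ext (Subtype.ext (Prod.ext h1 ((hk' y).1 y.2)))
    · rintro ⟨x, hx⟩
      have h1 : (x, (1 : Q')) ∈ FP α tΓ := by
        change α x = tΓ 1
        rw [map_one]
        exact hx
      exact ⟨⟨⟨(x, 1), h1⟩, (hk' _).2 rfl⟩, rfl⟩
  let E : α'.ker ≃* α.ker := MulEquiv.ofBijective u hu
  have hE : ∀ m : α'.ker, (E m : X) = fpl α tΓ m := fun m => rfl
  let a : FP α tΓ →* MulAut (∀ i, G i) :=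
    (MonoidHom.fst _ _).comp ((TB α e p).subtype.comp (t.comp (fpr α tΓ)))
  refine reg_act K M (FP α tΓ) α' hα' (E.trans e) hZ hn p a ?_ ?_
  · intro y hy
    change (t y.1.2).1.1 = 1
    rw [(hk' y).1 hy, map_one]
    rfl
  · intro y
    refine desc_pull α e p α' (fpl α tΓ) E hE y (a y) ?_
    refine desc_of_mem α e p ?_
    have h1 : (a y, α (fpl α tΓ y)) = (t y.1.2).1 := by
      refine Prod.ext rfl ?_
      exact y.2
    rw [h1]
    exact (t y.1.2).2

end pull

/-- Z-groups. -/
theorem rs_zgroup (H : Type) [Group H] [Finite H] [IsZGroup H] : RS (1 : H →* Unit) := by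
  obtain ⟨N, C, φ, E, hC, hN, -⟩ := isZGroup_iff_exists_mulEquiv.1 (inferInstance : IsZGroup H)
  have hNc : ∀ x y : N, x * y = y * x := by
    obtain ⟨g, hg⟩ := hN.exists_generator
    intro x y
    obtain ⟨k, rfl⟩ := hg x
    obtain ⟨l, rfl⟩ := hg y
    exact (Commute.refl g).zpow_zpow k l
  have hCc : ∀ x y : C, x * y = y * x := by
    obtain ⟨g, hg⟩ := hC.exists_generator
    intro x y
    obtain ⟨k, rfl⟩ := hg x
    obtain ⟨l, rfl⟩ := hg y
    exact (Commute.refl g).zpow_zpow k l
  have hfin : Finite (N ⋊[φ] C) := Finite.of_equiv _ E.toEquiv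
  have h1 : RS (SemidirectProduct.rightHom : N ⋊[φ] C →* C) := by
    refine ab_rs _ SemidirectProduct.inr (fun w => rfl) ?_
    intro x y hx hy
    have hx' : x.right = 1 := hx
    have hy' : y.right = 1 := hy
    refine SemidirectProduct.ext ?_ ?_
    · rw [SemidirectProduct.mul_left, SemidirectProduct.mul_left, hx', hy', map_one,
        MulAut.one_apply, MulAut.one_apply]
      exact hNc _ _
    · rw [SemidirectProduct.mul_right, SemidirectProduct.mul_right, hx', hy']
  have h2 : RS (1 : C →* Unit) := by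
    refine ab_rs _ (1 : Unit →* C) (fun w => rfl) ?_
    intro x y _ _
    exact hCc x y
  have h3 := RS.comp h2 h1
  exact RS.congr h3 E.symm (fun x => rfl)

end Pool.Agent.N600.ZQ
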