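import Mathlib
import Pool.Agent.N600.ZQ.T3
import Pool.Agent.N600.UK.Main
import Pool.Agent.W200.IJ.CA

/-!
# The main theorems on extensions by products of wreath products
-/

set_option autoImplicit false

namespace Pool.Agent.N600.ZQ

open Nfff32c05
open Pool.Agent.H391R2 (Wr wr_mul_left wr_mul_right wr_inv_left isRealizable_of
  isRealizable_quotient)
open Pool.Agent.H391R2.T4 (RegSol WeakSol HilbField exists_equiv_of_ker finite_wr)
open Pool.Agent.TH59.WX hiding quot_equiv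
open Pool.Agent.TH444.TW (RS ab_rs RegularOver restrictNormal_self)
open Pool.Agent.N600.UK (cl_of_center triv_aut regularOver_of_regSol inn_normal ProperSol)

set_option linter.unusedSectionVars false

/-- The data of a standardised product. -/
theorem exists_std {I : Type} (G : I → Type) [∀ i, Group (G i)] (n : I → ℕ) (N : Type) [Group N]
    (e : N ≃* ∀ i, Wr (G i) (n i)) :
    ∃ (J : Type) (f : J → I) (rep : I → J),
      (∀ j j', Nonempty (Wr (G (f j)) (n (f j)) ≃* Wr (G (f j')) (n (f j'))) → j = j') ∧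
      Nonempty (N ≃* ∀ i, Wr (G (f (rep i))) (n (f (rep i)))) := by
  classical
  let s : Setoid I :=
    { r := fun i i' => Nonempty (Wr (G i) (n i) ≃* Wr (G i') (n i'))
      iseqv := ⟨fun i => ⟨MulEquiv.refl _⟩, fun ⟨h⟩ => ⟨h.symm⟩, fun ⟨h⟩ ⟨h'⟩ => ⟨h.trans h'⟩⟩ }
  refine ⟨Quotient s, Quotient.out, Quotient.mk s, ?_, ?_⟩
  · intro j j' h
    have h1 : Quotient.mk s (Quotient.out j) = Quotient.mk s (Quotient.out j') := Quotient.sound h
    rwa [Quotient.out_eq, Quotient.out_eq] at h1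
  · have h1 : ∀ i, Nonempty (Wr (G i) (n i) ≃*
        Wr (G (Quotient.out (Quotient.mk s i))) (n (Quotient.out (Quotient.mk s i)))) := by
      intro i
      obtain ⟨f⟩ := (Quotient.mk_out (s := s) i : Nonempty _)
      exact ⟨f.symm⟩
    exact ⟨e.trans (MulEquiv.piCongrRight fun i => (h1 i).some)⟩

section std

variable {X Γ : Type} [Group X] [Group Γ] (α : X →* Γ) (hα : Function.Surjective α)
  {I J : Type} [Finite I] [DecidableEq I] {G₀ : J → Type} [∀ j, Group (G₀ j)]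
  [∀ j, Finite (G₀ j)] [∀ j, Nontrivial (G₀ j)] {n₀ : J → ℕ} (p₀ : ∀ j, Fin (n₀ j))
  (hZ : ∀ j, ∀ z : G₀ j, (∀ g : G₀ j, z * g = g * z) → z = 1)
  (hn : ∀ j, ((3 * Nat.card (G₀ j) + 2).factorial) ^ 3 ≤ n₀ j)
  (hstd : ∀ j j', Nonempty (Wr (G₀ j) (n₀ j) ≃* Wr (G₀ j') (n₀ j')) → j = j')
  (rep : I → J) (e : α.ker ≃* ∀ i, Wr (G₀ (rep i)) (n₀ (rep i)))

include hZ hn hstd in
theorem desc_exists (x : X) : ∃ a, Desc (G := fun i => G₀ (rep i)) (n := fun i => n₀ (rep i)) α e
    (fun i => p₀ (rep i)) x a := by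
  have hn2 : ∀ j, 2 * (Nat.card (G₀ j) + 2) ≤ n₀ j := fun j =>
    (Pool.Agent.N600.UK.bound_ge _).trans (hn j)
  obtain ⟨a, w, h⟩ := exists_desc p₀ hZ hn2 hstd rep (cj α e x)
  refine ⟨a, e.symm w, fun g => ?_⟩
  have h1 : (⟨x * (mu (G := fun i => G₀ (rep i)) (n := fun i => n₀ (rep i)) α e
      (fun i => p₀ (rep i)) g : X) * x⁻¹, conj_mem_ker α x (mu (G := fun i => G₀ (rep i))
      (n := fun i => n₀ (rep i)) α e (fun i => p₀ (rep i)) g).2⟩ : α.ker) =
      e.symm w * mu (G := fun i => G₀ (rep i)) (n := fun i => n₀ (rep i)) α e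
      (fun i => p₀ (rep i)) (a g) * (e.symm w)⁻¹ := by
    apply e.injective
    rw [← cj_apply]
    have h2 : ∀ g, e (mu (G := fun i => G₀ (rep i)) (n := fun i => n₀ (rep i)) α e
      (fun i => p₀ (rep i)) g) = fun i => sgl (p₀ (rep i)) (g i) := by
      intro g
      funext i
      exact e_mu (G := fun i => G₀ (rep i)) (n := fun i => n₀ (rep i)) α e
        (fun i => p₀ (rep i)) g i
    have h3 : (⟨(mu (G := fun i => G₀ (rep i)) (n := fun i => n₀ (rep i)) α e
      (fun i => p₀ (rep i)) g : X), (mu (G := fun i => G₀ (rep i))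
      (n := fun i => n₀ (rep i)) α e (fun i => p₀ (rep i)) g).2⟩ : α.ker) =
      mu (G := fun i => G₀ (rep i)) (n := fun i => n₀ (rep i)) α e (fun i => p₀ (rep i)) g := rfl
    rw [h3, h2, h, map_mul, map_mul, map_inv, MulEquiv.apply_symm_apply, h2]
    exact (mu (G := fun i => G₀ (rep i)) (n := fun i => n₀ (rep i)) α e
      (fun i => p₀ (rep i)) g).2
  exact congrArg Subtype.val h1

/-- The projection of the type group. -/
def bTB : TB (G := fun i => G₀ (rep i)) (n := fun i => n₀ (rep i)) α e (fun i => p₀ (rep i)) →* Γ :=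
  (MonoidHom.snd _ _).comp (Subgroup.subtype _)

include hα hZ hn hstd in
theorem bTB_surj : Function.Surjective (bTB α p₀ rep e) := by
  intro γ
  obtain ⟨x, rfl⟩ := hα γ
  obtain ⟨a, ha⟩ := desc_exists α p₀ hZ hn hstd rep e x
  exact ⟨⟨(a, α x), x, rfl, ha⟩, rfl⟩

/-- Inner automorphisms in the type group. -/
theorem inner_mem_TB (v : ∀ i, G₀ (rep i)) : (MulAut.conj v, (1 : Γ)) ∈
    TB (G := fun i => G₀ (rep i)) (n := fun i => n₀ (rep i)) α e (fun i => p₀ (rep i)) := by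
  refine ⟨mu (G := fun i => G₀ (rep i)) (n := fun i => n₀ (rep i)) α e (fun i => p₀ (rep i)) v,
    (mu (G := fun i => G₀ (rep i)) (n := fun i => n₀ (rep i)) α e (fun i => p₀ (rep i)) v).2,
    1, fun g => ?_⟩
  change _ = 1 * (mu (G := fun i => G₀ (rep i)) (n := fun i => n₀ (rep i)) α e
    (fun i => p₀ (rep i)) (v * g * v⁻¹) : X) * 1⁻¹
  have hinv : mu (G := fun i => G₀ (rep i)) (n := fun i => n₀ (rep i)) α e
      (fun i => p₀ (rep i)) v⁻¹ = (mu (G := fun i => G₀ (rep i)) (n := fun i => n₀ (rep i)) α e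
      (fun i => p₀ (rep i)) v)⁻¹ := by
    rw [eq_inv_iff_mul_eq_one, ← mu_mul, inv_mul_cancel]
    apply e.injective
    funext i
    rw [map_one]
    exact (e_mu (G := fun i => G₀ (rep i)) (n := fun i => n₀ (rep i)) α e
      (fun i => p₀ (rep i)) 1 i).trans (sgl_one _)
  rw [mu_mul, mu_mul, hinv, one_mul, inv_one, mul_one]
  rfl

include hα p₀ hZ hn hstd rep e in
/-- **Z-groups as quotients.** -/
theorem rs_z [Finite X] [Finite Γ] [IsZGroup Γ] : RS (1 : X →* Unit) := by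
  have hfA : Finite (MulAut (∀ i, G₀ (rep i))) :=
    Finite.of_injective (fun f : MulAut (∀ i, G₀ (rep i)) => (f : (∀ i, G₀ (rep i)) → _))
      DFunLike.coe_injective
  have hfB : Finite (TB (G := fun i => G₀ (rep i)) (n := fun i => n₀ (rep i)) α e
    (fun i => p₀ (rep i))) := inferInstance
  obtain ⟨H, hH, hHQ⟩ := zlift Γ _ (bTB α p₀ rep e) (bTB_surj α hα p₀ hZ hn hstd rep e)
  have h1 := rs_pull (G := fun i => G₀ (rep i)) (n := fun i => n₀ (rep i)) α e
    (fun i => p₀ (rep i)) hα (fun i => hZ _) (fun i => hn _) H.subtype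
  have hfin : Finite (FP α ((MonoidHom.snd _ _).comp ((TB (G := fun i => G₀ (rep i))
    (n := fun i => n₀ (rep i)) α e (fun i => p₀ (rep i))).subtype.comp H.subtype))) := by
    have : Finite H := inferInstance
    exact inferInstance
  have h2 := RS.comp (rs_zgroup H) h1
  refine RS.quot (fpl α _) (fpl_surj α _ ?_) (fun y => rfl) h2
  intro q
  obtain ⟨h, hh, hhq⟩ := hHQ q
  exact ⟨⟨h, hh⟩, hhq⟩

include hα p₀ hZ hn hstd rep e in
/-- **Outer action of order prime to the orders of the `G i`.** -/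
theorem rs_cop [Finite X] (hcop : ∀ i, ((α.ker ⊔ Subgroup.centralizer (α.ker : Set X)).index).Coprime
    (Nat.card (G₀ (rep i)))) : RS α := by
  classical
  cases nonempty_fintype I
  have hfA : Finite (MulAut (∀ i, G₀ (rep i))) :=
    Finite.of_injective (fun f : MulAut (∀ i, G₀ (rep i)) => (f : (∀ i, G₀ (rep i)) → _))
      DFunLike.coe_injective
  let B := TB (G := fun i => G₀ (rep i)) (n := fun i => n₀ (rep i)) α e (fun i => p₀ (rep i))
  let A₀ : Subgroup (MulAut (∀ i, G₀ (rep i))) := B.map (MonoidHom.fst _ _)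
  let V : Subgroup A₀ := (MulAut.conj : (∀ i, G₀ (rep i)) →* _).range.subgroupOf A₀
  have hVn : V.Normal := by
    have := inn_normal (∀ i, G₀ (rep i))
    exact Subgroup.normal_subgroupOf
  let f₁ : B →* A₀ := ((MonoidHom.fst _ _).comp B.subtype).codRestrict A₀ (fun y => ⟨y, y.2, rfl⟩)
  have hf₁ : Function.Surjective f₁ := by
    rintro ⟨_, y, hy, rfl⟩
    exact ⟨⟨y, hy⟩, rfl⟩
  let f₂ : B →* A₀ ⧸ V := (QuotientGroup.mk' V).comp f₁
  have hf₂ : Function.Surjective f₂ := (QuotientGroup.mk'_surjective V).comp hf₁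
  let b : B →* Γ := bTB α p₀ rep e
  have hb : Function.Surjective b := bTB_surj α hα p₀ hZ hn hstd rep e
  have hbk : b.ker ≤ f₂.ker := by
    rintro ⟨⟨a, γ⟩, hy⟩ hk
    have hγ : γ = 1 := hk
    subst hγ
    obtain ⟨v, hv⟩ := ker_TB (G := fun i => G₀ (rep i)) (n := fun i => n₀ (rep i)) α e
      (fun i => p₀ (rep i)) a hy
    rw [MonoidHom.mem_ker]
    exact (QuotientGroup.eq_one_iff _).2 ⟨v, hv⟩
  let ω : Γ →* A₀ ⧸ V := b.liftOfSurjective hb ⟨f₂, hbk⟩
  have hω : ∀ y, ω (b y) = f₂ y := fun y =>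
    MonoidHom.liftOfRightInverse_comp_apply b _ (Function.rightInverse_surjInv hb) ⟨f₂, hbk⟩ y
  have hωs : Function.Surjective (ω.comp α) := by
    intro q
    obtain ⟨y, rfl⟩ := hf₂ q
    obtain ⟨x, hx⟩ := hα (b y)
    exact ⟨x, by
      change ω (α x) = _
      rw [hx, hω]⟩
  have hωk : α.ker ⊔ Subgroup.centralizer (α.ker : Set X) ≤ (ω.comp α).ker := by
    refine sup_le ?_ ?_
    · intro x hx
      rw [MonoidHom.mem_ker]
      change ω (α x) = 1
      rw [(hx : α x = 1), map_one]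
    · intro x hx
      have h1 : Desc (G := fun i => G₀ (rep i)) (n := fun i => n₀ (rep i)) α e
          (fun i => p₀ (rep i)) x 1 := by
        refine ⟨1, fun g => ?_⟩
        have h2 := Subgroup.mem_centralizer_iff.1 hx _
          (mu (G := fun i => G₀ (rep i)) (n := fun i => n₀ (rep i)) α e (fun i => p₀ (rep i)) g).2
        change _ = 1 * (mu (G := fun i => G₀ (rep i)) (n := fun i => n₀ (rep i)) α e
          (fun i => p₀ (rep i)) g : X) * 1⁻¹
        rw [← h2, mul_inv_cancel_right, one_mul, inv_one, mul_one]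
      have h2 : ((1 : MulAut (∀ i, G₀ (rep i))), α x) ∈ B := ⟨x, rfl, h1⟩
      rw [MonoidHom.mem_ker]
      change ω (b ⟨(1, α x), h2⟩) = 1
      rw [hω]
      exact (QuotientGroup.eq_one_iff _).2 (one_mem V)
  have hidx : V.index ∣ (α.ker ⊔ Subgroup.centralizer (α.ker : Set X)).index := by
    refine dvd_trans ?_ (Subgroup.index_dvd_of_le hωk)
    rw [Subgroup.index_ker, MonoidHom.range_eq_top.2 hωs, Subgroup.card_top]
    exact dvd_rfl
  have hVc : Nat.card V ∣ ∏ i, Nat.card (G₀ (rep i)) := by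
    have h1 : Nat.card V ∣ Nat.card (MulAut.conj : (∀ i, G₀ (rep i)) →* _).range := by
      let u : V →* (MulAut.conj : (∀ i, G₀ (rep i)) →* _).range :=
        (A₀.subtype.comp V.subtype).codRestrict _ (fun y => y.2)
      refine Subgroup.card_dvd_of_injective u ?_
      intro y z hyz
      have h2 : ((y : A₀) : MulAut (∀ i, G₀ (rep i))) = ((z : A₀) : MulAut (∀ i, G₀ (rep i))) :=
        congrArg (fun w : (MulAut.conj : (∀ i, G₀ (rep i)) →* _).range =>
          (w : MulAut (∀ i, G₀ (rep i)))) hyz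
      exact Subtype.ext (Subtype.ext h2)
    refine (h1.trans (Subgroup.card_range_dvd _)).trans ?_
    rw [Nat.card_pi]
  have hcopV : Nat.Coprime (Nat.card V) V.index := by
    refine Nat.Coprime.coprime_dvd_left hVc ?_
    refine Nat.Coprime.coprime_dvd_right hidx ?_
    exact Nat.Coprime.prod_left fun i _ => (hcop i).symm
  obtain ⟨T₀, hT₀⟩ := Subgroup.exists_right_complement'_of_coprime hcopV
  let m : T₀ →* A₀ ⧸ V := (QuotientGroup.mk' V).comp T₀.subtype
  have hm : Function.Bijective m := by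
    constructor
    · rw [injective_iff_map_eq_one]
      intro t ht
      have h1 : (t : A₀) ∈ V := (QuotientGroup.eq_one_iff _).1 ht
      have h2 : (t : A₀) ∈ V ⊓ T₀ := ⟨h1, t.2⟩
      rw [hT₀.disjoint.eq_bot, Subgroup.mem_bot] at h2
      exact Subtype.ext h2
    · intro q
      obtain ⟨a, rfl⟩ := QuotientGroup.mk'_surjective V q
      have h1 : a ∈ V ⊔ T₀ := by rw [hT₀.sup_eq_top]; trivial
      obtain ⟨v, hv, t, ht, rfl⟩ := Subgroup.mem_sup_of_normal_left.1 h1
      refine ⟨⟨t, ht⟩, ?_⟩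
      have h2 : QuotientGroup.mk' V v = 1 := (QuotientGroup.eq_one_iff _).2 hv
      rw [map_mul, h2, one_mul]
      rfl
  let E₀ : T₀ ≃* A₀ ⧸ V := MulEquiv.ofBijective m hm
  let s₀ : A₀ ⧸ V →* A₀ := T₀.subtype.comp E₀.symm.toMonoidHom
  have hs₀ : ∀ q, QuotientGroup.mk' V (s₀ q) = q := fun q => E₀.apply_symm_apply q
  have hmem : ∀ γ, (((s₀ (ω γ) : A₀) : MulAut (∀ i, G₀ (rep i))), γ) ∈ B := by
    intro γ
    obtain ⟨y, rfl⟩ := hb γ
    have h1 : (f₁ y)⁻¹ * s₀ (ω (b y)) ∈ V := by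
      rw [← QuotientGroup.eq_one_iff]
      change QuotientGroup.mk' V ((f₁ y)⁻¹ * s₀ (ω (b y))) = 1
      rw [map_mul, map_inv, hs₀, hω]
      exact inv_mul_cancel _
    obtain ⟨v, hv⟩ := h1
    have h2 := mul_mem y.2 (inner_mem_TB α p₀ rep e v)
    have h3 : (y : MulAut (∀ i, G₀ (rep i)) × Γ) * (MulAut.conj v, 1) =
        (((s₀ (ω (b y)) : A₀) : MulAut (∀ i, G₀ (rep i))), b y) := by
      refine Prod.ext ?_ ?_
      · change (y : MulAut (∀ i, G₀ (rep i)) × Γ).1 * MulAut.conj v = _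
        rw [hv]
        change (y : MulAut (∀ i, G₀ (rep i)) × Γ).1 *
          ((y : MulAut (∀ i, G₀ (rep i)) × Γ).1⁻¹ * (s₀ (ω (b y)) : A₀)) = _
        rw [mul_inv_cancel_left]
      · exact mul_one _
    rw [← h3]
    exact h2
  let t : Γ →* B := MonoidHom.mk' (fun γ => ⟨_, hmem γ⟩) (fun γ δ => by
    apply Subtype.ext
    refine Prod.ext ?_ rfl
    change ((s₀ (ω (γ * δ)) : A₀) : MulAut (∀ i, G₀ (rep i))) = (s₀ (ω γ) : A₀) * (s₀ (ω δ) : A₀)
    rw [map_mul, map_mul]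
    rfl)
  have h1 := rs_pull (G := fun i => G₀ (rep i)) (n := fun i => n₀ (rep i)) α e
    (fun i => p₀ (rep i)) hα (fun i => hZ _) (fun i => hn _) t
  refine RS.quot (fpl α _) (fpl_surj α _ fun γ => ⟨γ, rfl⟩) (fun y => ?_) h1
  exact y.2

end std

end Pool.Agent.N600.ZQ
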