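import Mathlib
import Pool.Agent.N600.ZQ.T4
import Pool.Agent.N600.NS.Stm

/-!
# Frattini covers
-/

set_option autoImplicit false

namespace Pool.Agent.N600.ZQ

open Nfff32c05
open Pool.Agent.H391R2 (Wr wr_mul_left wr_mul_right wr_inv_left isRealizable_of
  isRealizable_quotient)
open Pool.Agent.H391R2.T4 (RegSol WeakSol HilbField hilb_numberField exists_equiv_of_ker finite_wr)
open Pool.Agent.TH59.WX hiding quot_equiv
open Pool.Agent.TH444.TW (RS RSK ab_rs RegularOver restrictNormal_self)
open Pool.Agent.N600.UK (cl_of_center triv_aut regularOver_of_regSol inn_normal ProperSol snd_rsk)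

set_option linter.unusedSectionVars false

/-- `π` is surjective and its kernel is contained in the Frattini subgroup. -/
def FratCover {Q Y : Type} [Group Q] [Group Y] (π : Q →* Y) : Prop :=
  Function.Surjective π ∧ π.ker ≤ frattini Q

/-- Minimal supplements. -/
theorem exists_frat {B Γ : Type} [Group B] [Finite B] [Group Γ] (b : B →* Γ)
    (hb : Function.Surjective b) : ∃ H : Subgroup B, FratCover (b.comp H.subtype) := by
  classical
  have hex : ∃ m, ∃ H : Subgroup B, Function.Surjective (b.comp H.subtype) ∧ Nat.card H = m :=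
    ⟨_, ⊤, fun γ => by
      obtain ⟨y, hy⟩ := hb γ
      exact ⟨⟨y, trivial⟩, hy⟩, rfl⟩
  obtain ⟨H, hH, hm⟩ := Nat.find_spec hex
  refine ⟨H, hH, ?_⟩
  intro x hx
  rw [mem_frattini]
  intro M hM
  by_contra hxM
  have h1 : M < M ⊔ (b.comp H.subtype).ker := left_lt_sup.2 (fun h => hxM (h hx))
  have h2 := hM.2 _ h1
  let H' : Subgroup B := M.map H.subtype
  have hs : Function.Surjective (b.comp H'.subtype) := by
    intro γ
    obtain ⟨y, rfl⟩ := hH γ
    have h3 : y ∈ M ⊔ (b.comp H.subtype).ker := by rw [h2]; trivial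
    obtain ⟨m, hm, k, hk, rfl⟩ := Subgroup.mem_sup_of_normal_right.1 h3
    refine ⟨⟨H.subtype m, m, hm, rfl⟩, ?_⟩
    change b (m : B) = (b.comp H.subtype) (m * k)
    rw [map_mul, (hk : (b.comp H.subtype) k = 1), mul_one]
    rfl
  have hle : H' ≤ H := by
    rintro _ ⟨m, -, rfl⟩
    exact m.2
  have hlt : H' < H := by
    refine lt_of_le_of_ne hle ?_
    intro h
    apply hM.1
    rw [eq_top_iff]
    intro y _
    have h3 : (y : B) ∈ H' := by rw [h]; exact y.2
    obtain ⟨m, hm, hmy⟩ := h3
    have h4 : m = y := Subtype.ext hmy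
    rw [← h4]
    exact hm
  have hcard : Nat.card H' < Nat.card H := by
    have h3 : (H' : Set B) ⊂ (H : Set B) := hlt
    have h4 := Set.ncard_lt_ncard h3 (Set.toFinite _)
    rwa [← Nat.card_coe_set_eq, ← Nat.card_coe_set_eq] at h4
  exact Nat.find_min hex (m := Nat.card H') (by rw [← hm]; exact hcard) ⟨H', hs, rfl⟩

section frat

variable {Q Y : Type} [Group Q] [Finite Q] [Group Y] {π : Q →* Y} (h : FratCover π)

include h

/-- The kernel of a Frattini cover is nilpotent. -/
theorem FratCover.ker_nilpotent : Group.IsNilpotent π.ker := by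
  have h1 : Group.IsNilpotent (frattini Q) := frattini_nilpotent
  have h2 : Group.IsNilpotent (π.ker.subgroupOf (frattini Q)) := inferInstance
  exact Group.nilpotent_of_mulEquiv (Subgroup.subgroupOfEquivOfLe h.2)

theorem FratCover.solvable (hY : Group.IsSolvable Y) : Group.IsSolvable Q := by
  have h1 : Group.IsNilpotent π.ker := h.ker_nilpotent
  have h2 : Group.IsSolvable π.ker := inferInstance
  exact Group.isSolvable_of_ker_le_range π.ker.subtype π (by rw [Subgroup.range_subtype])

theorem FratCover.nilpotent [Finite Y] (hY : Group.IsNilpotent Y) : Group.IsNilpotent Q := by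
  refine (Group.isNilpotent_of_finite_tfae (G := Q)).out 2 0 |>.1 ?_
  intro M hM
  have h1 : π.ker ≤ M := h.2.trans (frattini_le_coatom hM)
  have h2 : (M.map π).comap π = M := by
    rw [Subgroup.comap_map_eq, sup_eq_left.2 h1]
  have h3 : IsCoatom (M.map π) := by
    constructor
    · intro h4
      apply hM.1
      rw [← h2, h4, Subgroup.comap_top]
    · intro S hS
      have h5 : M < S.comap π := by
        rw [← h2]
        exact (Subgroup.comap_lt_comap_of_surjective h.1).2 hS
      have h6 := hM.2 _ h5
      rw [eq_top_iff]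
      intro y _
      obtain ⟨x, rfl⟩ := h.1 y
      have h7 : x ∈ S.comap π := by rw [h6]; trivial
      exact h7
  have h4 : ∀ H : Subgroup Y, IsCoatom H → H.Normal :=
    (Group.isNilpotent_of_finite_tfae (G := Y)).out 0 2 |>.1 hY
  rw [← h2]
  exact (h4 _ h3).comap π

/-- The primes which divide the order of a Frattini cover. -/
theorem FratCover.prime (p : ℕ) (hp : p.Prime) (hpQ : p ∣ Nat.card Q) : p ∣ Nat.card Y := by
  classical
  by_contra hpY
  have := Fact.mk hp
  have hnil : Group.IsNilpotent π.ker := h.ker_nilpotent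
  obtain ⟨P⟩ : Nonempty (Sylow p π.ker) := inferInstance
  have hPn : (P : Subgroup π.ker).Normal := inferInstance
  have hchar : (P : Subgroup π.ker).Characteristic := Sylow.characteristic_of_normal P hPn
  let R : Subgroup Q := (P : Subgroup π.ker).map π.ker.subtype
  have hR : R.Normal := by
    refine ⟨?_⟩
    rintro _ ⟨t, ht, rfl⟩ x
    let a : MulAut π.ker := MulAut.conjNormal x
    have ha : a t ∈ (P : Subgroup π.ker) := by
      have h4 : t ∈ (P : Subgroup π.ker).comap a.toMonoidHom := by
        have h5 : (P : Subgroup π.ker).comap a.toMonoidHom = P := hchar.fixed a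
        rw [h5]
        exact ht
      exact h4
    exact ⟨a t, ha, MulAut.conjNormal_apply _ _⟩
  have hcardQ : Nat.card Q = Nat.card Y * Nat.card π.ker := by
    rw [Subgroup.card_eq_card_quotient_mul_card_subgroup π.ker,
      Nat.card_congr (QuotientGroup.quotientKerEquivOfSurjective π h.1).toEquiv]
  have hYfin : Finite Y := Finite.of_surjective π h.1
  have hcop : Nat.Coprime (Nat.card P) (Nat.card Y * (P : Subgroup π.ker).index) := by
    refine Nat.Coprime.mul_right ?_ P.card_coprime_index
    obtain ⟨k, hk⟩ := IsPGroup.iff_card.1 P.2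
    rw [hk]
    exact Nat.Coprime.pow_left _ ((Nat.Prime.coprime_iff_not_dvd hp).2 hpY)
  have hRcard : Nat.card R = Nat.card P := by
    refine Nat.card_congr ((P : Subgroup π.ker).equivMapOfInjective _ ?_).symm.toEquiv
    exact Subtype.val_injective
  have hRidx : R.index = Nat.card Y * (P : Subgroup π.ker).index := by
    have h1 := R.index_mul_card
    have h2 := (P : Subgroup π.ker).index_mul_card
    rw [hRcard, hcardQ, ← h2, ← mul_assoc] at h1
    exact Nat.eq_of_mul_eq_mul_right Nat.card_pos h1
  obtain ⟨T, hT⟩ := Subgroup.exists_right_complement'_of_coprime (N := R) (by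
    rw [hRcard, hRidx]
    exact hcop)
  have hRf : R ≤ frattini Q := by
    rintro _ ⟨t, -, rfl⟩
    exact h.2 t.2
  have hT1 : T = ⊤ := by
    apply frattini_nongenerating
    rw [eq_top_iff, ← hT.sup_eq_top, sup_comm]
    exact sup_le_sup_left hRf T
  have hR1 : R = ⊥ := by
    have h1 := hT.disjoint
    rw [hT1, disjoint_top] at h1
    exact h1
  have hP1 : Nat.card P = 1 := by
    rw [← hRcard, hR1]
    exact Subgroup.card_bot
  have h1 : p ∣ Nat.card π.ker := by
    rw [hcardQ] at hpQ
    exact (hp.dvd_mul.1 hpQ).resolve_left hpY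
  have h2 := P.dvd_card_of_dvd_card h1
  rw [hP1] at h2
  exact hp.one_lt.ne' (Nat.dvd_one.1 h2)

end frat

/-- Realizations of `Q` give realizations of `X`. -/
def Reduces (Q X : Type) [Group Q] [Group X] : Prop :=
  (∀ (K : Type) [Field K] [NumberField K], IsRealizable K Q → IsRealizable K X) ∧
  (∀ (K : Type) [Field K], HilbField K → IsRealizable K Q → IsRealizable K X) ∧
  (∀ (K : Type) [Field K], RegularOver K Q → RegularOver K X)

theorem reduces_of_rs {P Q X : Type} [Group P] [Finite P] [Group Q] [Finite Q] [Group X]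
    [Finite X] (r : P →* Q) (hr : RS r) (q : P →* X) (hq : Function.Surjective q) :
    Reduces Q X := by
  have hil : ∀ (K : Type) [Field K], HilbField K → IsRealizable K Q → IsRealizable K X := by
    intro K _ hK h
    obtain ⟨L, i1, i2, i3, i4, ⟨f⟩⟩ := exists_gal_of K Q h
    obtain ⟨F, j1, j2, j3, j4, j5, j6, γ, -⟩ := hil_of_reg K L P hK _ (hr.all K L f.symm)
    exact isRealizable_quotient F (q.comp γ.toMonoidHom) (hq.comp γ.surjective)
  refine ⟨fun K _ _ h => hil K (hilb_numberField K) h, hil, ?_⟩
  intro K _ h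
  have h1 : RSK K (1 : Q →* Unit) := by
    refine RSK.quot (MonoidHom.fst Q Unit) Prod.fst_surjective (fun y => ?_) (snd_rsk K Q h Unit)
    exact Subsingleton.elim _ _
  have h2 : RSK K ((1 : Q →* Unit).comp r) := RSK.comp h1 hr.rsk
  have h3 : RSK K (1 : X →* Unit) := RSK.quot q hq (fun y => rfl) h2
  let ε : (K ≃ₐ[K] K) ≃* Unit :=
    { toFun := fun _ => ()
      invFun := fun _ => 1
      left_inv := fun σ => triv_aut _ _
      right_inv := fun _ => rfl
      map_mul' := fun _ _ => rfl }
  have h4 := h3.all K ε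
  have h5 : ε.symm.toMonoidHom.comp (1 : X →* Unit) = 1 := by
    ext x
    rfl
  rw [h5] at h4
  exact regularOver_of_regSol h4

/-- Unconditional realizations. -/
def Realized (X : Type) [Group X] : Prop :=
  (∀ (K : Type) [Field K] [NumberField K], IsRealizable K X) ∧
  (∀ (K : Type) [Field K], HilbField K → IsRealizable K X) ∧
  (∀ (K : Type) [Field K], RegularOver K X)

end Pool.Agent.N600.ZQ
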