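import Mathlib
import Pool.Agent.N600.ZQ.T6
import Pool.Agent.Y60.DC.PGrp

/-!
# Characteristic `p`: group theory of Frattini covers and kernels which are `p`-groups
-/

set_option autoImplicit false

namespace Pool.Agent.N600.ZQ

open Nfff32c05
open Pool.Agent.H391R2 (Wr)
open Pool.Agent.H391R2.T4 (RegSol WeakSol HilbField)
open Pool.Agent.TH444.TW (RS RSK RegularOver)

set_option linter.unusedSectionVars false

/-- Epimorphisms whose kernel is a `p`-group, in characteristic `p`. -/
theorem pgroup_rsk (p : ℕ) [Fact p.Prime] (K : Type) [Field K] [CharP K p] {W W' : Type}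
    [Group W] [Group W'] [Finite W'] (π : W' →* W) (hπ : Function.Surjective π)
    (hk : IsPGroup p π.ker) : RSK K π := by
  intro K' M _ _ _ _ _ _ _ ε
  have : CharP K' p := charP_of_injective_algebraMap (algebraMap K K').injective p
  have hker : (ε.symm.toMonoidHom.comp π).ker = π.ker := by
    ext x
    rw [MonoidHom.mem_ker, MonoidHom.mem_ker]
    change ε.symm (π x) = 1 ↔ _
    rw [map_eq_one_iff _ ε.symm.injective]
  exact Pool.Agent.Y60.DC.pgroup_reg p _ K' M W' _ (ε.symm.surjective.comp hπ)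
    (by rw [hker]; exact hk) rfl

section grp

variable {Q Y : Type} [Group Q] [Finite Q] [Group Y] {π : Q →* Y} (h : FratCover π)

include h in
/-- A Frattini cover of a group with a normal `p`-subgroup. -/
theorem FratCover.pquot (p : ℕ) [Fact p.Prime] (P : Subgroup Y) [P.Normal] (hP : IsPGroup p P) :
    ∃ (S : Subgroup Q) (_ : S.Normal) (π₁ : Q ⧸ S →* Y ⧸ P), IsPGroup p S ∧ FratCover π₁ ∧
      ¬ p ∣ Nat.card π₁.ker ∧ Nat.card π₁.ker ∣ Nat.card π.ker := by
  classical
  have hYf : Finite Y := Finite.of_surjective π h.1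
  let R : Subgroup Q := P.comap π
  have hRn : R.Normal := Subgroup.Normal.comap inferInstance π
  obtain ⟨S₀⟩ : Nonempty (Sylow p R) := inferInstance
  let S : Subgroup Q := (S₀ : Subgroup R).map R.subtype
  -- the image of `S` is `P`
  have hSP : ∀ r ∈ R, ∃ s ∈ S, π s = π r := by
    let f : R →* P := (π.comp R.subtype).codRestrict P (fun x => x.2)
    have hf : Function.Surjective f := by
      rintro ⟨y, hy⟩
      obtain ⟨x, rfl⟩ := h.1 y
      exact ⟨⟨x, hy⟩, rfl⟩
    have h1 : ((S₀.mapSurjective hf : Sylow p P) : Subgroup P) = ⊤ := by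
      have h2 : IsPGroup p (⊤ : Subgroup P) := hP.to_subgroup ⊤ 
      exact ((S₀.mapSurjective hf).is_maximal' h2 le_top).symm
    intro r hr
    have h2 : f ⟨r, hr⟩ ∈ ((S₀.mapSurjective hf : Sylow p P) : Subgroup P) := by
      rw [h1]; trivial
    rw [Sylow.coe_mapSurjective] at h2
    obtain ⟨s, hs, hs2⟩ := h2
    exact ⟨s, ⟨s, hs, rfl⟩, congrArg Subtype.val hs2⟩
  have hRle : R ≤ π.ker ⊔ S := by
    intro r hr
    obtain ⟨s, hs, hs2⟩ := hSP r hr
    have h1 : r * s⁻¹ ∈ π.ker := by
      rw [MonoidHom.mem_ker, map_mul, map_inv, hs2, mul_inv_cancel]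
    have h2 : r = (r * s⁻¹) * s := by rw [inv_mul_cancel_right]
    rw [h2]
    exact Subgroup.mul_mem_sup h1 hs
  have hN : Subgroup.normalizer (S : Set Q) = ⊤ := by
    have h1 := Sylow.normalizer_sup_eq_top S₀
    apply frattini_nongenerating
    rw [eq_top_iff, ← h1]
    refine sup_le le_sup_left ?_
    refine hRle.trans (sup_le (h.2.trans le_sup_right) ?_)
    exact (Subgroup.le_normalizer (H := S)).trans le_sup_left
  have hSn : S.Normal := Subgroup.normalizer_eq_top_iff.1 hN
  have hSR : S ≤ R := by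
    rintro _ ⟨s, -, rfl⟩
    exact s.2
  have hlift : S ≤ ((QuotientGroup.mk' P).comp π).ker := by
    intro s hs
    rw [MonoidHom.mem_ker]
    exact (QuotientGroup.eq_one_iff _).2 (hSR hs)
  let π₁ : Q ⧸ S →* Y ⧸ P := QuotientGroup.lift S ((QuotientGroup.mk' P).comp π) hlift
  have hπ₁ : ∀ x : Q, π₁ (QuotientGroup.mk' S x) = QuotientGroup.mk' P (π x) := fun x => rfl
  have hker : π₁.ker = R.map (QuotientGroup.mk' S) := by
    ext y
    obtain ⟨x, rfl⟩ := QuotientGroup.mk'_surjective S y
    rw [MonoidHom.mem_ker, hπ₁]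
    constructor
    · intro h1
      exact ⟨x, (QuotientGroup.eq_one_iff (π x)).1 h1, rfl⟩
    · rintro ⟨r, hr, hrx⟩
      rw [← hπ₁, ← hrx, hπ₁]
      exact (QuotientGroup.eq_one_iff _).2 hr
  have hker2 : π₁.ker = π.ker.map (QuotientGroup.mk' S) := by
    rw [hker]
    apply le_antisymm
    · rintro _ ⟨r, hr, rfl⟩
      obtain ⟨s, hs, hs2⟩ := hSP r hr
      have h1 : r * s⁻¹ ∈ π.ker := by
        rw [MonoidHom.mem_ker, map_mul, map_inv, hs2, mul_inv_cancel]
      refine ⟨r * s⁻¹, h1, ?_⟩
      rw [map_mul, map_inv]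
      have h2 : QuotientGroup.mk' S s = 1 := (QuotientGroup.eq_one_iff _).2 hs
      rw [h2, inv_one, mul_one]
    · refine Subgroup.map_mono ?_
      intro x hx
      change π x ∈ P
      rw [(hx : π x = 1)]
      exact one_mem P
  have hSp : IsPGroup p S := S₀.2.map _
  refine ⟨S, hSn, π₁, hSp, ⟨?_, ?_⟩, ?_, ?_⟩
  · intro y
    obtain ⟨y, rfl⟩ := QuotientGroup.mk'_surjective P y
    obtain ⟨x, rfl⟩ := h.1 y
    exact ⟨QuotientGroup.mk' S x, rfl⟩
  · rw [hker2, Subgroup.map_le_iff_le_comap]
    exact h.2.trans (frattini_le_comap_frattini_of_surjective (QuotientGroup.mk'_surjective S))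
  · rw [hker]
    have h1 : Nat.card (R.map (QuotientGroup.mk' S)) = (S₀ : Subgroup R).index := by
      have h2 : ((QuotientGroup.mk' S).comp R.subtype).ker = S₀ := by
        ext r
        rw [MonoidHom.mem_ker]
        change QuotientGroup.mk' S (r : Q) = 1 ↔ _
        refine (QuotientGroup.eq_one_iff (r : Q)).trans ?_
        constructor
        · rintro ⟨s, hs, hsr⟩
          have h3 : s = r := Subtype.ext hsr
          rw [← h3]
          exact hs
        · intro hr
          exact ⟨r, hr, rfl⟩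
      rw [← h2, Subgroup.index_ker, MonoidHom.range_comp, Subgroup.range_subtype]
    rw [h1]
    exact S₀.not_dvd_index
  · rw [hker2]
    exact Subgroup.card_map_dvd _ _

include h in
/-- Frattini covers of groups with cyclic Sylow subgroups. -/
theorem FratCover.zgroup [Finite Y] [IsZGroup Y] : IsZGroup Q := by
  obtain ⟨H, hH, hHs⟩ := zlift Y Q π h.1
  have h1 : H = ⊤ := by
    apply frattini_nongenerating
    rw [eq_top_iff]
    intro x _
    obtain ⟨y, hy, hyx⟩ := hHs (π x)
    have h2 : y⁻¹ * x ∈ π.ker := by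
      rw [MonoidHom.mem_ker, map_mul, map_inv, hyx, inv_mul_cancel]
    have h3 : x = y * (y⁻¹ * x) := by rw [mul_inv_cancel_left]
    rw [h3]
    exact Subgroup.mul_mem_sup hy (h.2 h2)
  subst h1
  exact IsZGroup.of_surjective (f := (Subgroup.topEquiv : (⊤ : Subgroup Q) ≃* Q).toMonoidHom)
    (Subgroup.topEquiv : (⊤ : Subgroup Q) ≃* Q).surjective

end grp

end Pool.Agent.N600.ZQ
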