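import Mathlib
import Pool.Agent.N600.ZQ.P1
import Pool.Agent.TH377.IG.Spec

/-!
# Characteristic `p`: reduction to Frattini covers
-/

set_option autoImplicit false

namespace Pool.Agent.N600.ZQ

open Nfff32c05
open Pool.Agent.H391R2 (Wr wr_mul_left wr_mul_right wr_inv_left isRealizable_of
  isRealizable_quotient)
open Pool.Agent.H391R2.T4 (RegSol WeakSol HilbField hilb_numberField exists_equiv_of_ker finite_wr)
open Pool.Agent.TH59.WX hiding quot_equiv
open Pool.Agent.TH444.TW (RS RSK ab_rs RegularOver restrictNormal_self)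
open Pool.Agent.N600.UK (cl_of_center triv_aut regularOver_of_regSol inn_normal ProperSol snd_rsk reg_quot)
open Pool.Agent.TH377.IG (SpecProp spec_hilb spec_ratFunc)

set_option linter.unusedSectionVars false

section std

variable {X Γ : Type} [Group X] [Group Γ] (α : X →* Γ) (hα : Function.Surjective α)
  {I J : Type} [Finite I] [DecidableEq I] {G₀ : J → Type} [∀ j, Group (G₀ j)]
  [∀ j, Finite (G₀ j)] [∀ j, Nontrivial (G₀ j)] {n₀ : J → ℕ} (p₀ : ∀ j, Fin (n₀ j))
  (hZ : ∀ j, ∀ z : G₀ j, (∀ g : G₀ j, z * g = g * z) → z = 1)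
  (hn : ∀ j, ((3 * Nat.card (G₀ j) + 2).factorial) ^ 3 ≤ n₀ j)
  (hstd : ∀ j j', Nonempty (Wr (G₀ j) (n₀ j) ≃* Wr (G₀ j') (n₀ j')) → j = j')
  (rep : I → J) (e : α.ker ≃* ∀ i, Wr (G₀ (rep i)) (n₀ (rep i)))

/-- The kernel of the type group. -/
theorem card_ker_bTB' [Fintype I] (H : Subgroup (TB (G := fun i => G₀ (rep i))
    (n := fun i => n₀ (rep i)) α e (fun i => p₀ (rep i)))) :
    Nat.card ((bTB α p₀ rep e).comp H.subtype).ker ∣ ∏ i, Nat.card (G₀ (rep i)) := by
  have hfA : Finite (MulAut (∀ i, G₀ (rep i))) :=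
    Finite.of_injective (fun f : MulAut (∀ i, G₀ (rep i)) => (f : (∀ i, G₀ (rep i)) → _))
      DFunLike.coe_injective
  have h0 : ∀ y : ((bTB α p₀ rep e).comp H.subtype).ker, ((y : H) : TB (G := fun i => G₀ (rep i))
    (n := fun i => n₀ (rep i)) α e (fun i => p₀ (rep i))).1.2 = 1 := fun y => y.2
  let u : ((bTB α p₀ rep e).comp H.subtype).ker →* (MulAut.conj : (∀ i, G₀ (rep i)) →* _).range :=
    (((MonoidHom.fst _ _).comp (Subgroup.subtype _)).comp
      (H.subtype.comp (Subgroup.subtype _))).codRestrict _ (fun y => by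
      obtain ⟨v, hv⟩ := ker_TB (G := fun i => G₀ (rep i)) (n := fun i => n₀ (rep i)) α e
        (fun i => p₀ (rep i)) ((y : H) : TB (G := fun i => G₀ (rep i))
          (n := fun i => n₀ (rep i)) α e (fun i => p₀ (rep i))).1.1 (by
          have h1 := ((y : H) : TB (G := fun i => G₀ (rep i))
            (n := fun i => n₀ (rep i)) α e (fun i => p₀ (rep i))).2
          have h2 : ((y : H) : TB (G := fun i => G₀ (rep i))
            (n := fun i => n₀ (rep i)) α e (fun i => p₀ (rep i))).1 = (((y : H) : TB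
              (G := fun i => G₀ (rep i)) (n := fun i => n₀ (rep i)) α e
                (fun i => p₀ (rep i))).1.1, 1) := Prod.ext rfl (h0 y)
          rw [h2] at h1
          exact h1)
      exact ⟨v, hv⟩)
  have hu : Function.Injective u := by
    intro y z hyz
    apply Subtype.ext
    apply Subtype.ext
    apply Subtype.ext
    refine Prod.ext ?_ ((h0 y).trans (h0 z).symm)
    exact congrArg (fun w : (MulAut.conj : (∀ i, G₀ (rep i)) →* _).range =>
      (w : MulAut (∀ i, G₀ (rep i)))) hyz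
  refine (Subgroup.card_dvd_of_injective u hu).trans ?_
  refine (Subgroup.card_range_dvd _).trans ?_
  rw [Nat.card_pi]

include hα p₀ hZ hn hstd rep e in
/-- **The reduction to Frattini covers.** -/
theorem frat_std' [Finite X] [Finite Γ] [Fintype I] :
    ∃ (P Q : Type) (_ : Group P) (_ : Finite P) (_ : Group Q) (_ : Finite Q) (π : Q →* Γ)
      (r : P →* Q) (q : P →* X), FratCover π ∧ Nat.card π.ker ∣ ∏ i, Nat.card (G₀ (rep i)) ∧
        RS r ∧ Function.Surjective q := by
  have hfA : Finite (MulAut (∀ i, G₀ (rep i))) :=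
    Finite.of_injective (fun f : MulAut (∀ i, G₀ (rep i)) => (f : (∀ i, G₀ (rep i)) → _))
      DFunLike.coe_injective
  have hfB : Finite (TB (G := fun i => G₀ (rep i)) (n := fun i => n₀ (rep i)) α e
    (fun i => p₀ (rep i))) := inferInstance
  obtain ⟨H, hH⟩ := exists_frat (bTB α p₀ rep e) (bTB_surj α hα p₀ hZ hn hstd rep e)
  have h1 := rs_pull (G := fun i => G₀ (rep i)) (n := fun i => n₀ (rep i)) α e
    (fun i => p₀ (rep i)) hα (fun i => hZ _) (fun i => hn _) H.subtype
  have hfH : Finite H := inferInstance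
  have hfin : Finite (FP α ((MonoidHom.snd _ _).comp ((TB (G := fun i => G₀ (rep i))
    (n := fun i => n₀ (rep i)) α e (fun i => p₀ (rep i))).subtype.comp H.subtype))) :=
    inferInstance
  exact ⟨_, H, inferInstance, hfin, inferInstance, inferInstance,
    (bTB α p₀ rep e).comp H.subtype, _, fpl α _, hH, card_ker_bTB' α p₀ rep e H, h1,
    fpl_surj α _ hH.1⟩

end std

/-- Realizations by specialisation. -/
theorem spec_real {K : Type} [Field K] (hK : SpecProp K) {P Q X : Type} [Group P] [Finite P]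
    [Group Q] [Finite Q] [Group X] (r : P →* Q) (hr : RSK K r) (q : P →* X)
    (hq : Function.Surjective q) (h : IsRealizable K Q) : IsRealizable K X := by
  obtain ⟨L, i1, i2, i3, i4, ⟨f⟩⟩ := exists_gal_of K Q h
  obtain ⟨F, j1, j2, j3, j4, j5, j6, j7, j8, γ', hγ', -⟩ := hr.all L f.symm
  obtain ⟨F, j1, j2, j3, j4, j5, j6, γ, -⟩ := hK L P _ ⟨F, j1, j2, j3, j4, j5, j6, j7, j8, γ', hγ'⟩
  exact isRealizable_quotient F (q.comp γ.toMonoidHom) (hq.comp γ.surjective)

/-- Regular realizations. -/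
theorem reg_real {K : Type} [Field K] {P Q X : Type} [Group P] [Finite P]
    [Group Q] [Finite Q] [Group X] [Finite X] (r : P →* Q) (hr : RSK K r) (q : P →* X)
    (hq : Function.Surjective q) (h : RegularOver K Q) : RegularOver K X := by
  have h1 : RSK K (1 : Q →* Unit) := by
    refine RSK.quot (MonoidHom.fst Q Unit) Prod.fst_surjective (fun y => ?_) (snd_rsk K Q h Unit)
    exact Subsingleton.elim _ _
  have h2 : RSK K ((1 : Q →* Unit).comp r) := RSK.comp h1 hr
  have h3 : RSK K (1 : X →* Unit) := RSK.quot q hq (fun y => rfl) h2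
  let ε : (K ≃ₐ[K] K) ≃* Unit :=
    { toFun := fun _ => ()
      invFun := fun _ => 1
      left_inv := fun σ => triv_aut _ _
      right_inv := fun _ => rfl
      map_mul' := fun _ _ => rfl }
  have h4 := h3.all K ε
  have h5 : ε.symm.toMonoidHom.comp (1 : X →* Unit) = 1 := by
    ext x
    rfl
  rw [h5] at h4
  exact regularOver_of_regSol h4

/-- Realizations of `Q` in characteristic `p` give realizations of `X`. -/
def ReducesP (p : ℕ) (Q X : Type) [Group Q] [Group X] : Prop :=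
  (∀ (κ : Type) [Field κ] [Finite κ] [CharP κ p],
    IsRealizable (RatFunc κ) Q → IsRealizable (RatFunc κ) X) ∧
  (∀ (K : Type) [Field K] [CharP K p], HilbField K → IsRealizable K Q → IsRealizable K X) ∧
  (∀ (K : Type) [Field K] [CharP K p], RegularOver K Q → RegularOver K X)

theorem reducesP_of {p : ℕ} {P Q X : Type} [Group P] [Finite P] [Group Q] [Finite Q] [Group X]
    [Finite X] (r : P →* Q) (hr : ∀ (K : Type) [Field K] [CharP K p], RSK K r) (q : P →* X)
    (hq : Function.Surjective q) : ReducesP p Q X := by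
  refine ⟨fun κ _ _ _ h => ?_, fun K _ _ hK h => ?_, fun K _ _ h => ?_⟩
  · have : CharP (RatFunc κ) p := Pool.Agent.Y60.DC.charP_ratFunc κ p
    exact spec_real (spec_ratFunc κ) r (hr _) q hq h
  · exact spec_real (spec_hilb hK) r (hr _) q hq h
  · exact reg_real r (hr _) q hq h

/-- Unconditional realizations in characteristic `p`. -/
def RealizedP (p : ℕ) (X : Type) [Group X] : Prop :=
  (∀ (κ : Type) [Field κ] [Finite κ] [CharP κ p], IsRealizable (RatFunc κ) X) ∧
  (∀ (K : Type) [Field K] [CharP K p], HilbField K → IsRealizable K X) ∧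
  (∀ (K : Type) [Field K] [CharP K p], RegularOver K X)

/-- `X` and `Y` occur over the same fields. -/
def SameP (p : ℕ) (X Y : Type) [Group X] [Group Y] : Prop :=
  (∀ (κ : Type) [Field κ] [Finite κ] [CharP κ p],
    IsRealizable (RatFunc κ) X ↔ IsRealizable (RatFunc κ) Y) ∧
  (∀ (K : Type) [Field K] [CharP K p], HilbField K → (IsRealizable K X ↔ IsRealizable K Y)) ∧
  (∀ (K : Type) [Field K] [CharP K p], RegularOver K X ↔ RegularOver K Y)

theorem realizedP_of {p : ℕ} {X : Type} [Group X] [Finite X]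
    (h : ∀ (K : Type) [Field K] [CharP K p], RSK K (1 : X →* Unit)) : RealizedP p X := by
  obtain ⟨h2, h3, h4⟩ := reducesP_of (p := p) (1 : X →* Unit) h (MonoidHom.id X)
    Function.surjective_id
  have hU : ∀ (K : Type) [Field K], IsRealizable K Unit := by
    intro K _
    have ε : (K ≃ₐ[K] K) ≃* Unit :=
      { toFun := fun _ => ()
        invFun := fun _ => 1
        left_inv := fun σ => triv_aut _ _
        right_inv := fun _ => rfl
        map_mul' := fun _ _ => rfl }
    exact isRealizable_of K ε.symm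
  have hR : ∀ (K : Type) [Field K], RegularOver K Unit := by
    intro K _
    have h5 : RS (MulEquiv.refl Unit : Unit →* Unit) := RS.of_equiv (MulEquiv.refl Unit)
    let ε : (K ≃ₐ[K] K) ≃* Unit :=
      { toFun := fun _ => ()
        invFun := fun _ => 1
        left_inv := fun σ => triv_aut _ _
        right_inv := fun _ => rfl
        map_mul' := fun _ _ => rfl }
    have h4 := h5.all K K ε
    have h6 : ε.symm.toMonoidHom.comp (MulEquiv.refl Unit : Unit →* Unit) = 1 := by
      ext x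
      rfl
    rw [h6] at h4
    exact regularOver_of_regSol h4
  exact ⟨fun κ _ _ _ => h2 κ (hU _), fun K _ _ hK => h3 K hK (hU K), fun K _ _ => h4 K (hR K)⟩

section main

variable {I : Type} [Finite I] {G : I → Type} [∀ i, Group (G i)] [∀ i, Finite (G i)]
  [∀ i, Nontrivial (G i)] {n : I → ℕ} (hZ : ∀ i, Subgroup.center (G i) = ⊥)
  (hn : ∀ i, ((3 * Nat.card (G i) + 2).factorial) ^ 3 ≤ n i)
  (X : Type) [Group X] (N : Subgroup X) [N.Normal]
  (hN : Nonempty (N ≃* ∀ i, Wr (G i) (n i))) (hfin : Finite (X ⧸ N))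
  (p : ℕ) [Fact p.Prime] (P : Subgroup (X ⧸ N)) [P.Normal] (hP : IsPGroup p P)

include hZ hn hN hfin hP

/-- **The reduction to Frattini covers.** -/
theorem fratp_aux :
    ∃ (W Q : Type) (_ : Group W) (_ : Finite W) (_ : Group Q) (_ : Finite Q)
      (π : Q →* (X ⧸ N) ⧸ P) (r : W →* Q) (q : W →* X), FratCover π ∧ ¬ p ∣ Nat.card π.ker ∧
        (∀ l : ℕ, l.Prime → l ∣ Nat.card π.ker → ∃ i, l ∣ Nat.card (G i)) ∧
        (∀ (K : Type) [Field K] [CharP K p], RSK K r) ∧ Function.Surjective q := by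
  classical
  cases nonempty_fintype I
  have hfinX : Finite X := fin_main hZ hn X N hN hfin
  have hk : (QuotientGroup.mk' N).ker = N := QuotientGroup.ker_mk' N
  obtain ⟨J, f, rep, hstd, ⟨e⟩⟩ := exists_std G n (QuotientGroup.mk' N).ker
    ((MulEquiv.subgroupCongr hk).trans hN.some)
  have hpos : ∀ i, 0 < n i := fun i =>
    lt_of_lt_of_le (pow_pos (Nat.factorial_pos _) 3) (hn i)
  obtain ⟨W, Q₀, iW, fW, iQ, fQ, π₀, r₀, q, hfr, hcard, hr₀, hq⟩ :=
    frat_std' (QuotientGroup.mk' N) (QuotientGroup.mk'_surjective N)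
    (G₀ := fun j => G (f j)) (n₀ := fun j => n (f j)) (fun j => ⟨0, hpos _⟩)
    (fun j => cl_of_center (hZ _)) (fun j => hn _) hstd rep e
  obtain ⟨S, hS, π₁, hSp, hfr₁, hnd, hdvd⟩ := hfr.pquot p P hP
  refine ⟨W, Q₀ ⧸ S, iW, fW, inferInstance, inferInstance, π₁, (QuotientGroup.mk' S).comp r₀, q,
    hfr₁, hnd, ?_, ?_, hq⟩
  · intro l hl h1
    obtain ⟨i, -, hi⟩ := hl.prime.exists_mem_finset_dvd ((h1.trans hdvd).trans hcard)
    exact ⟨_, hi⟩
  · intro K _ _
    refine RSK.comp (pgroup_rsk p K (QuotientGroup.mk' S) (QuotientGroup.mk'_surjective S) ?_)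
      hr₀.rsk
    rw [QuotientGroup.ker_mk']
    exact hSp

theorem fratp_main :
    ∃ (Q : Type) (_ : Group Q) (_ : Finite Q) (π : Q →* (X ⧸ N) ⧸ P), FratCover π ∧
      Group.IsNilpotent π.ker ∧ ¬ p ∣ Nat.card π.ker ∧
      (∀ l : ℕ, l.Prime → l ∣ Nat.card π.ker →
        l ∣ Nat.card ((X ⧸ N) ⧸ P) ∧ ∃ i, l ∣ Nat.card (G i)) ∧ ReducesP p Q X := by
  have hfinX : Finite X := fin_main hZ hn X N hN hfin
  obtain ⟨W, Q, iW, fW, iQ, fQ, π, r, q, h1, h2, h3, h4, h5⟩ :=
    fratp_aux hZ hn X N hN hfin p P hP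
  refine ⟨Q, iQ, fQ, π, h1, h1.ker_nilpotent, h2, fun l hl hlk => ⟨?_, h3 l hl hlk⟩,
    reducesP_of r h4 q h5⟩
  exact h1.prime l hl (hlk.trans (Subgroup.card_subgroup_dvd_card _))

/-- **Coprime quotients.** -/
theorem copp_main (hcop : ∀ l : ℕ, l.Prime → l ≠ p → l ∣ Nat.card ((X ⧸ N) ⧸ P) →
    ∀ i, ¬ l ∣ Nat.card (G i)) : SameP p X ((X ⧸ N) ⧸ P) := by
  have hfinX : Finite X := fin_main hZ hn X N hN hfin
  obtain ⟨Q, iQ, fQ, π, h1, -, h2, h3, h4⟩ := fratp_main hZ hn X N hN hfin p P hP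
  have hone : Nat.card π.ker = 1 := by
    by_contra hne
    obtain ⟨l, hl, hlk⟩ := Nat.exists_prime_and_dvd hne
    obtain ⟨h5, i, hi⟩ := h3 l hl hlk
    refine hcop l hl ?_ h5 i hi
    rintro rfl
    exact h2 hlk
  have hbot : π.ker = ⊥ := Subgroup.card_eq_one.1 hone
  let E : Q ≃* (X ⧸ N) ⧸ P := MulEquiv.ofBijective π ⟨(MonoidHom.ker_eq_bot_iff π).1 hbot, h1.1⟩
  obtain ⟨h5, h6, h7⟩ := h4
  have hq : Function.Surjective ((QuotientGroup.mk' P).comp (QuotientGroup.mk' N)) :=
    (QuotientGroup.mk'_surjective P).comp (QuotientGroup.mk'_surjective N)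
  have hto : ∀ (K : Type) [Field K], IsRealizable K X → IsRealizable K ((X ⧸ N) ⧸ P) := by
    intro K _ h
    obtain ⟨L, i1, i2, i3, i4, ⟨f⟩⟩ := exists_gal_of K X h
    exact isRealizable_quotient L (((QuotientGroup.mk' P).comp (QuotientGroup.mk' N)).comp
      f.symm.toMonoidHom) (hq.comp f.symm.surjective)
  have hback : ∀ (K : Type) [Field K], IsRealizable K ((X ⧸ N) ⧸ P) → IsRealizable K Q := by
    intro K _ h
    obtain ⟨L, i1, i2, i3, i4, ⟨f⟩⟩ := exists_gal_of K _ h
    exact isRealizable_quotient L (E.symm.toMonoidHom.comp f.symm.toMonoidHom)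
      (E.symm.surjective.comp f.symm.surjective)
  refine ⟨fun κ _ _ _ => ⟨hto _, fun h => h5 κ (hback _ h)⟩,
    fun K _ _ hK => ⟨hto _, fun h => h6 K hK (hback _ h)⟩, fun K _ _ => ⟨?_, fun h => h7 K ?_⟩⟩
  · intro h
    refine regularOver_of_regSol ?_
    exact reg_quot 1 1 ((QuotientGroup.mk' P).comp (QuotientGroup.mk' N)) hq (fun y => rfl)
      (Pool.Agent.TH444.TW.regSol_of_regularOver h)
  · refine regularOver_of_regSol ?_
    exact reg_quot 1 1 E.symm.toMonoidHom E.symm.surjective (fun y => rfl)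
      (Pool.Agent.TH444.TW.regSol_of_regularOver h)

/-- **Quotients with cyclic Sylow subgroups up to a normal `p`-subgroup.** -/
theorem zp_main [IsZGroup ((X ⧸ N) ⧸ P)] : RealizedP p X := by
  have hfinX : Finite X := fin_main hZ hn X N hN hfin
  obtain ⟨W, Q, iW, fW, iQ, fQ, π, r, q, h1, h2, h3, h4, h5⟩ :=
    fratp_aux hZ hn X N hN hfin p P hP
  have hz : IsZGroup Q := h1.zgroup
  refine realizedP_of fun K _ _ => ?_
  exact RSK.quot q h5 (fun y => rfl) (RSK.comp (rs_zgroup Q).rsk (h4 K))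

end main

end Pool.Agent.N600.ZQ
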